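import Pool.Agent.MP_684c87_al.General
import Mathlib.Topology.Algebra.InfiniteSum.Order
import Mathlib.Topology.Algebra.InfiniteSum.Ring
import Mathlib.Algebra.BigOperators.Field

/-! Transience by comparison of energies, and bounded harmonic functions from a germ lamp. -/

set_option autoImplicit false

open Filter Topology Function

namespace Pool.Agent.MP_684c87_al.NE

lemma summ {α : Type} {φ : α → ℝ} (h : (support φ).Finite) {F : α → ℝ}
    (hF : ∀ x, φ x = 0 → F x = 0) : Summable F :=
  summable_of_hasFiniteSupport (h.subset fun x hx h0 => hx (hF x h0))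

lemma fin_comp {α β : Type} {φ : β → ℝ} (h : (support φ).Finite) {e : α → β}
    (he : Injective e) : (support fun x => φ (e x)).Finite := h.preimage he.injOn

lemma summ_sq {α : Type} {φ : α → ℝ} (h : (support φ).Finite) {e : α → α} (he : Injective e) :
    Summable fun x => (φ (e x) - φ x) ^ 2 :=
  summable_of_hasFiniteSupport (((fin_comp h he).union h).subset fun x hx => by
    by_contra hn
    simp only [Set.mem_union, mem_support, not_or, not_not] at hn
    exact hx (by simp [hn.1, hn.2]))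

/-- The energy inequality on the lattice. -/
theorem dirichlet (φ : V → ℝ) (h : (support φ).Finite) :
    φ 0 ^ 2 ≤ ∑ j, ∑' t, (φ (Pi.single j 1 + t) - φ t) ^ 2 := by
  let a : V → ℝ := fun t => φ t ^ 2 / pot t
  have ha : ∀ t, 0 ≤ a t := fun t => div_nonneg (sq_nonneg _) (pot_pos t).le
  have hs : ∀ F : V → ℝ, Summable fun t => F t * a t := fun F => summ h fun x hx => by simp [a, hx]
  have h1 : ∀ j : Fin 5, ∑' t, (2 * pot t - (pot (t + Pi.single j 1) +
      pot (t + Pi.single j (-1)))) * a t ≤ ∑' t, (φ (Pi.single j 1 + t) - φ t) ^ 2 := fun j => by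
    have e1 := (Equiv.addLeft (Pi.single j 1 : V)).tsum_eq
      fun t => (pot t - pot (t + Pi.single j (-1))) * a t
    have s2 := (Equiv.addLeft (Pi.single j 1 : V)).summable_iff.2
      (hs fun t => pot t - pot (t + Pi.single j (-1)))
    simp only [Function.comp_def] at s2
    have e2 : ∀ t, (2 * pot t - (pot (t + Pi.single j 1) + pot (t + Pi.single j (-1)))) * a t =
        (pot t - pot (t + Pi.single j 1)) * a t + (pot t - pot (t + Pi.single j (-1))) * a t :=
      fun t => by ring
    simp only [e2]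
    rw [(hs _).tsum_add (hs _), ← e1, ← (hs _).tsum_add s2]
    refine ((hs _).add s2).tsum_le_tsum (fun t => ?_) (summ_sq h (add_right_injective _))
    have e3 : (Pi.single j 1 : V) + t + Pi.single j (-1) = t := by
      rw [Pi.single_neg]; abel
    simp only [Equiv.coe_addLeft, e3, a, add_comm t (Pi.single j 1)]
    have p1 := pot_pos t
    have p2 := pot_pos (Pi.single j 1 + t)
    generalize pot t = w at p1
    generalize pot (Pi.single j 1 + t) = w' at p2
    generalize φ t = x
    generalize φ (Pi.single j 1 + t) = y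
    rw [← sub_nonneg]
    have : (y - x) ^ 2 - ((w - w') * (x ^ 2 / w) + (w' - w) * (y ^ 2 / w')) =
        (w' * x - w * y) ^ 2 / (w * w') := by
      field_simp
      ring
    rw [this]
    positivity
  refine le_trans ?_ (Finset.sum_le_sum fun j _ => h1 j)
  rw [← Summable.tsum_finsetSum fun j _ => hs _]
  simp only [← Finset.sum_mul]
  refine le_trans ?_ ((hs _).le_tsum 0 fun t _ => mul_nonneg ?_ (ha t))
  · simp only [zero_add, pot_zero, pot_single _ 1 (by norm_num), pot_single _ (-1) (by norm_num),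
      Finset.sum_const, Finset.card_univ, Fintype.card_fin, nsmul_eq_mul, a]
    push_cast
    nlinarith [sq_nonneg (φ 0)]
  · have := pot_superharmonic t
    rw [Finset.sum_sub_distrib]
    simp only [Finset.sum_const, Finset.card_univ, Fintype.card_fin, nsmul_eq_mul]
    push_cast
    linarith

variable {G Ω ι : Type} [Group G] [MulAction G Ω] [Fintype ι]

/-- The energy inequality passes to an action that contains a free orbit of the lattice. -/
theorem dirichlet_of_lattice (s : ι → G) (o : Ω) (T : V → G) (hT : ∀ a b, T (a + b) = T a * T b)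
    (h0 : ∀ t, T t • o = o ↔ t = 0) (k : Fin 5 → ι) (hk : Injective k)
    (hs : ∀ j, s (k j) = T (Pi.single j 1)) (φ : Ω → ℝ) (h : (support φ).Finite) :
    φ o ^ 2 ≤ ∑ i, ∑' x, (φ (s i • x) - φ x) ^ 2 := by
  classical
  have inj : Injective fun t => T t • o := fun a b hab => by
    have : T (-b + a) • o = T (-b + b) • o := by
      rw [hT, hT, mul_smul, mul_smul]
      exact congrArg _ hab
    rw [neg_add_cancel, (h0 0).2 rfl, h0] at this
    exact (neg_add_eq_zero.1 this).symm
  have := dirichlet (fun t => φ (T t • o)) (fin_comp h inj)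
  rw [(h0 0).2 rfl] at this
  refine this.trans (le_trans (Finset.sum_le_sum fun j _ => ?_)
    ((Finset.sum_image (s := Finset.univ) (f := fun i => ∑' x, (φ (s i • x) - φ x) ^ 2)
      hk.injOn).symm.le.trans (Finset.sum_le_sum_of_subset_of_nonneg (Finset.subset_univ _)
        fun i _ _ => tsum_nonneg fun _ => sq_nonneg _)))
  refine (summ_sq (fin_comp h inj) (add_right_injective _)).tsum_le_tsum_of_inj _ inj
    (fun _ _ => sq_nonneg _) (fun t => ?_) (summ_sq h (MulAction.injective _))
  rw [hT, mul_smul, hs]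

/-- The hitting probability of a transient point. -/
theorem exists_hit [Nonempty ι] (s : ι → G) (o : Ω)
    (hD : ∀ φ : Ω → ℝ, (support φ).Finite → φ o ^ 2 ≤ ∑ i, ∑' x, (φ (s i • x) - φ x) ^ 2) :
    ∃ U : Ω → ℝ, (∀ x, 0 ≤ U x) ∧ (∀ x, U x ≤ 1) ∧
      (∀ x, x ≠ o → ∑ i, U (s i • x) = Fintype.card ι * U x) ∧
      ∑ i, U (s i • o) ≤ Fintype.card ι * U o - 1 / 2 ∧ ∀ ε, 0 < ε → ∃ x, U x < ε := by
  classical
  obtain ⟨N, hN⟩ : ∃ N : ℝ, N = Fintype.card ι := ⟨_, rfl⟩
  have N0 : 0 < N := by rw [hN]; exact_mod_cast Fintype.card_pos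
  have hc : ∀ c : ℝ, ∑ _i : ι, c = N * c := fun c => by simp [hN]
  rw [← hN]
  let Q : (Ω → ℝ) → Ω → ℝ := fun φ x => if x = o then 1 else (∑ i, φ (s i • x)) / N
  have Qm : Monotone Q := fun φ ψ h x => by
    simp only [Q]
    split_ifs
    · exact le_rfl
    · exact div_le_div_of_nonneg_right (Finset.sum_le_sum fun i _ => h _) N0.le
  let u : ℕ → Ω → ℝ := fun n => Q^[n] 0
  have us : ∀ n, u (n + 1) = Q (u n) := fun n => iterate_succ_apply' Q n 0
  have um : Monotone u := Qm.monotone_iterate_of_le_map fun x => by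
    simp only [Q]
    split_ifs <;> simp
  have ul : ∀ W : Ω → ℝ, 0 ≤ W → Q W ≤ W → ∀ n, u n ≤ W := fun W h0 h n => by
    induction n with
    | zero => exact h0
    | succ n ih => rw [us]; exact (Qm ih).trans h
  have u1 := ul 1 zero_le_one fun x => by
    simp only [Q, Pi.one_apply, hc, mul_one, div_self N0.ne', ite_self, le_refl]
  have uf : ∀ n, (support (u n)).Finite := fun n => by
    induction n with
    | zero => simp [u]
    | succ n ih =>
      refine ((Set.finite_singleton o).union (Set.finite_iUnion fun i =>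
        fin_comp ih (MulAction.injective (s i)))).subset fun x hx => ?_
      by_contra hn
      simp only [Set.mem_union, Set.mem_singleton_iff, Set.mem_iUnion, mem_support, not_or,
        not_exists, not_not] at hn
      exact hx (by simp [us, Q, hn.1, hn.2])
  have ue : ∀ n, ∑ i, u (n + 1) (s i • o) ≤ N - 1 / 2 := fun n => by
    have h1 := hD _ (uf (n + 1))
    have h2 : u (n + 1) ≤ Q (u (n + 1)) := us (n + 1) ▸ um (Nat.le_succ _)
    have h3 : u (n + 1) o = 1 := by simp [us, Q]
    have h4 : ∀ x, 0 ≤ u (n + 1) x := um (Nat.zero_le (n + 1))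
    have hf := uf (n + 1)
    generalize u (n + 1) = φ at h1 h2 h3 h4 hf
    have hs : ∀ F : Ω → ℝ, Summable fun x => φ x * F x := fun F => summ hf fun x hx => by simp [hx]
    have e : ∀ i, ∑' x, (φ (s i • x) - φ x) ^ 2 = ∑' x, φ x * (2 * (φ x - φ (s i • x))) := by
      intro i
      have e1 := (MulAction.toPerm (s i)).tsum_eq fun x => φ x * φ x
      have s1 : Summable fun x => φ (s i • x) * φ (s i • x) :=
        (MulAction.toPerm (s i)).summable_iff.2 (hs φ)
      have e2 : ∀ x, (φ (s i • x) - φ x) ^ 2 = φ x * (2 * (φ x - φ (s i • x))) +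
          (φ (s i • x) * φ (s i • x) - φ x * φ x) := fun x => by ring
      simp only [e2]
      rw [(hs _).tsum_add (Summable.sub s1 (hs φ)), Summable.tsum_sub s1 (hs φ)]
      simp only [MulAction.toPerm_apply] at e1
      rw [e1, sub_self, add_zero]
    simp only [e] at h1
    rw [← Summable.tsum_finsetSum fun i _ => hs _] at h1
    simp only [← Finset.mul_sum, Finset.sum_sub_distrib, hc] at h1
    have h5 := (hs fun x => -(2 * (N * φ x - ∑ i, φ (s i • x)))).le_tsum o fun x hx =>
      mul_nonneg (h4 x) (by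
        have := h2 x
        simp only [Q, if_neg hx] at this
        rw [le_div_iff₀ N0] at this
        linarith)
    simp only [mul_neg, tsum_neg] at h5
    rw [h3] at h1 h5
    linarith
  have hb : ∀ x, BddAbove (Set.range fun n => u n x) := fun x => ⟨1, by
    rintro _ ⟨n, rfl⟩
    exact u1 n x⟩
  have ht : ∀ x, Tendsto (fun n => u n x) atTop (𝓝 (⨆ n, u n x)) := fun x =>
    tendsto_atTop_ciSup (fun a b h => um h x) (hb x)
  have ht' := fun x => (tendsto_add_atTop_iff_nat 1).2 (ht x)
  have Uo : ⨆ n, u n o = 1 := tendsto_nhds_unique (ht' o) (by simp [us, Q])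
  have Uh : ∀ x, x ≠ o → ∑ i, ⨆ n, u n (s i • x) = N * ⨆ n, u n x := fun x hx => by
    rw [mul_comm, ← div_eq_iff N0.ne']
    refine tendsto_nhds_unique ((tendsto_finsetSum _ fun i _ => ht _).div_const N) ?_
    simpa only [us, Q, if_neg hx] using ht' x
  have Ue : ∑ i, ⨆ n, u n (s i • o) ≤ N - 1 / 2 :=
    le_of_tendsto' (tendsto_finsetSum _ fun i _ => ht' _) ue
  refine ⟨fun x => ⨆ n, u n x, fun x => le_ciSup (hb x) 0, fun x => ciSup_le fun n => u1 n x, Uh,
    by simp only [Uo, mul_one]; exact Ue, fun ε hε => ?_⟩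
  by_contra hn
  push Not at hn
  obtain ⟨i, hi⟩ : ∃ i, ⨆ n, u n (s i • o) < 1 := by
    by_contra h
    push Not at h
    have := Finset.sum_le_sum fun i (_ : i ∈ Finset.univ) => h i
    rw [hc] at this
    linarith
  have e1 : 0 < 1 - ε := by linarith [hn (s i • o)]
  have := ciSup_le fun n => ul (fun x => ((⨆ n, u n x) - ε) / (1 - ε))
    (fun x => div_nonneg (sub_nonneg.2 (hn x)) e1.le) (fun x => by
      simp only [Q]
      split_ifs with hx
      · rw [hx, Uo, div_self e1.ne']
      · rw [← Finset.sum_div, Finset.sum_sub_distrib, Uh x hx, hc]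
        refine le_of_eq ?_
        field_simp) n (s i • o)
  rw [le_div_iff₀ e1] at this
  nlinarith

/-- A lamp that changes only at a transient point gives a bounded harmonic function. -/
theorem exists_harm [Nonempty ι] (s : ι → G) (o : Ω) (htr : ∀ x : Ω, ∃ g : G, g⁻¹ • o = x)
    (hD : ∀ φ : Ω → ℝ, (support φ).Finite → φ o ^ 2 ≤ ∑ i, ∑' x, (φ ((s i)⁻¹ • x) - φ x) ^ 2)
    (b : G → ℝ) (hb : ∀ g, |b g| = 1) (hs : ∀ g i, g⁻¹ • o ≠ o → b (g * s i) = b g)
    (hc : ∀ g : G, ∃ g' : G, g'⁻¹ • o = g⁻¹ • o ∧ b g' = -b g) :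
    ∃ u : G → ℝ, (∀ g, u g = ∑ i, 1 / Fintype.card ι * u (g * s i)) ∧ (∃ C, ∀ g, |u g| ≤ C) ∧
      ∃ g h, u g ≠ u h := by
  obtain ⟨U, U0, U1, Uh, Ue, Us⟩ := exists_hit (fun i => (s i)⁻¹) o hD
  obtain ⟨N, hN⟩ : ∃ N : ℝ, N = Fintype.card ι := ⟨_, rfl⟩
  have N0 : 0 < N := by rw [hN]; exact_mod_cast Fintype.card_pos
  have hcs : ∀ c : ℝ, ∑ _i : ι, c = N * c := fun c => by simp [hN]
  rw [← hN] at Uh Ue ⊢
  obtain ⟨u, hu, hub⟩ := exists_harmonic_near s (1 / N) (by positivity) b
    (fun g => 4 * N * U (g⁻¹ • o)) (fun g => mul_nonneg (by positivity) (U0 _)) fun g => by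
      simp only [mul_inv_rev, mul_smul, ← Finset.mul_sum]
      by_cases h : g⁻¹ • o = o
      · have h1 : |∑ i, b (g * s i)| ≤ N := (Finset.abs_sum_le_sum_abs _ _).trans (by
          simp only [hb, hcs, mul_one, le_refl])
        have h2 : |1 / N * ∑ i, b (g * s i)| ≤ 1 := by
          rw [abs_mul, abs_of_pos (by positivity : 0 < 1 / N), one_div, inv_mul_le_iff₀ N0, mul_one]
          exact h1
        have h3 : 1 / N * (4 * N * ∑ i, U ((s i)⁻¹ • o)) = 4 * ∑ i, U ((s i)⁻¹ • o) := by
          field_simp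
        rw [h, h3]
        refine (abs_sub _ _).trans ?_
        rw [hb]
        linarith
      · simp only [hs g _ h, hcs, Uh _ h]
        refine le_of_eq ?_
        field_simp
        simp
  refine ⟨u, hu, ⟨4 * N + 1, fun g => ?_⟩, ?_⟩
  · have h1 := abs_le.1 (hub g)
    have h2 := abs_le.1 (hb g).le
    have h3 := mul_le_mul_of_nonneg_left (U1 (g⁻¹ • o)) (by positivity : 0 ≤ 4 * N)
    rw [abs_le]
    constructor <;> linarith [h1.1, h1.2, h2.1, h2.2]
  · obtain ⟨x, hx⟩ := Us (1 / (4 * N)) (by positivity)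
    obtain ⟨g, rfl⟩ := htr x
    obtain ⟨g', e1, e2⟩ := hc g
    refine ⟨g, g', fun h => ?_⟩
    have h1 := abs_le.1 (hub g)
    have h2 := abs_le.1 (hub g')
    rw [lt_div_iff₀ (by positivity)] at hx
    simp only [e1, e2, ← h] at h1 h2
    rcases (abs_eq zero_le_one).1 (hb g) with h3 | h3 <;> linarith [h1.1, h1.2, h2.1, h2.2]

end Pool.Agent.MP_684c87_al.NE
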