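import Pool.Agent.MP_684c87_al.NE.Contr

/-! The group is amenable. -/

set_option autoImplicit false

open Function Sum

namespace Pool.Agent.MP_684c87_al.NE

/-- Translations and all lamp moves. -/
def H : Subgroup P where
  carrier := {h | ∃ t π, h = T t * L π}
  one_mem' := ⟨0, 1, by simp [T_zero]⟩
  mul_mem' := by
    rintro _ _ ⟨t, π, rfl⟩ ⟨t', π', rfl⟩
    exact ⟨t + t', (fun u => π (T t' u)) * π', by
      rw [map_mul, T_add, mul_assoc, ← mul_assoc (L π), L_mul_T, mul_assoc, mul_assoc]⟩
  inv_mem' := by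
    rintro _ ⟨t, π, rfl⟩
    exact ⟨-t, _, by rw [mul_inv_rev, ← map_inv, ← T_neg, L_mul_T]⟩

lemma T_H (t : V) : T t ∈ H := ⟨t, 1, by simp⟩

lemma L_H (π : List Y → Equiv.Perm (Fin 5)) : L π ∈ H := ⟨0, π, by simp [T_zero]⟩

lemma fm_H (s : V) (ρ : alternatingGroup (Fin 5)) (s' : V) : fm s ρ s' ∈ H :=
  H.mul_mem (H.mul_mem (T_H _) (L_H _)) (T_H _)

lemma st_H_inr {h : P} (hh : h ∈ H) (e : Fin 5) : ∃ y', St h (inr e) y' 1 := by
  obtain ⟨t, π, rfl⟩ := hh
  exact ⟨_, by simpa [cy, T_zero] using (st_T t (inr _)).mul (st_L_inr π e)⟩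

lemma cl_H : Cl H := fun h hh => by
  refine ⟨by obtain ⟨t, π, rfl⟩ := hh; rfl, ?_⟩
  rintro (x | e)
  · obtain ⟨t, π, rfl⟩ := hh
    exact ⟨_, _, ⟨_, _, rfl⟩, (st_T t _).mul (st_L_inl π x)⟩
  · obtain ⟨y', K⟩ := st_H_inr hh e
    exact ⟨y', 1, H.one_mem, K⟩

lemma TL_unique {t t' : V} {π π' : List Y → Equiv.Perm (Fin 5)} (h : T t * L π = T t' * L π') :
    t = t' := by
  refine (neg_add_eq_zero.1 (T_free (-t' + t) fun n => ?_)).symm
  have := congrArg (fun g : P => g (zn n)) h
  simp only [Equiv.Perm.mul_apply, L_zn] at this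
  rw [T_add, T_neg, Equiv.Perm.mul_apply, this]
  simp

lemma L_const (w : List Y) (π : List Y → Equiv.Perm (Fin 5)) :
    ∃ ρ, L π w = L (fun _ => ρ) w := by
  induction w generalizing π with
  | nil => exact ⟨1, rfl⟩
  | cons y w ih =>
    rcases y with x | e
    · obtain ⟨ρ, h⟩ := ih fun u => π (inl x :: u)
      exact ⟨ρ, congrArg (inl x :: ·) h⟩
    · exact ⟨π [], rfl⟩

theorem am_H : Am H := by
  classical
  have hex : ∀ h : H, ∃ t π, h.1 = T t * L π := fun h => h.2
  choose φ π hφ using hex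
  refine mean_of_split φ (fun g h => TL_unique (π := π (g * h))
    (π' := (fun u => π g (T (φ h) u)) * π h) ?_) (fun t => ⟨T t, T_H t⟩)
    (fun t => TL_unique (π' := 1) ((hφ _).symm.trans (by simp))) fun S hS => ?_
  · rw [← hφ, Subgroup.coe_mul, hφ g, hφ h, map_mul, T_add, mul_assoc, ← mul_assoc (L _), L_mul_T,
      mul_assoc, mul_assoc]
  refine finite_closure_of_bounded_orbits (α := List Y) S (Fintype.card (Equiv.Perm (Fin 5)))
    fun w => ⟨Finset.univ.image fun ρ => L (fun _ => ρ) w, Finset.card_image_le, fun g hg => ?_⟩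
  obtain ⟨p, hp⟩ := (Subgroup.closure_le (L.range.comap H.subtype)).2
    (fun s hs => ⟨π s, by rw [Subgroup.subtype_apply, hφ s, hS s hs, T_zero, one_mul]⟩) hg
  obtain ⟨ρ, h⟩ := L_const w p
  exact Finset.mem_image.2 ⟨ρ, Finset.mem_univ _, by rw [← h, hp]; rfl⟩

/-- The words along which a directed element stays active. -/
def Tl (w : List Y) : Prop := w = List.replicate w.length (inr 0) ∨
  w = List.replicate (w.length - 1) (inr 0) ++ [inr 1]

lemma B_tl (w : List Y) {p : P} (hp : p ∈ B) : SecIn H p w ∨ Tl w := by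
  induction w with
  | nil => exact Or.inr (Or.inl rfl)
  | cons y w ih =>
    have h1 : ∀ {g : P} {y'}, St g y y' 1 → SecIn H g (y :: w) := fun K =>
      ⟨1, H.one_mem, K.sec (sec_one w)⟩
    obtain ⟨a, rfl | rfl⟩ := hp
    · have K := st_hat a y
      split_ifs at K with h0 h2
      · rcases ih with ⟨k, hk, K'⟩ | h | h
        · exact Or.inl ⟨k, hk, K.sec K'⟩
        · exact Or.inr (Or.inl (by rw [h0, List.length_cons, List.replicate_succ, ← h]))
        · refine Or.inr (Or.inr ?_)
          cases w with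
          | nil => simp at h
          | cons y' w =>
            rw [h0]
            exact congrArg (inr 0 :: ·) h
      · cases w with
        | nil => exact Or.inr (Or.inr (by rw [h2]; rfl))
        | cons y' w => exact Or.inl ⟨1, H.one_mem, K.sec ((st_rt a y').sec (sec_one w))⟩
      · exact Or.inl (h1 K)
    · exact Or.inl (h1 (st_rt a y))

lemma bad_tl {g : P} {n : ℕ} (hg : ∀ v : List Y, n ≤ v.length → SecIn N g v) {v : List Y}
    (h : ¬ SecIn H g v) : Tl (v.drop n) := by
  rcases le_total v.length n with hv | hv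
  · rw [List.drop_eq_nil_of_le hv]
    exact Or.inl rfl
  obtain ⟨k, hk, K⟩ := hg (v.take n) (by simp [hv])
  have : ¬ SecIn H k (v.drop n) := fun ⟨p, hp, K'⟩ =>
    h ⟨p, hp, List.take_append_drop n v ▸ K.append K'⟩
  rcases hk with ⟨s, ρ, s', -, -, rfl⟩ | hk
  · exact absurd (cl_H.sec _ _ (fm_H s ρ s')).2 this
  · exact (B_tl _ hk).resolve_left this

lemma vertex_succ (ξ : ℕ → Y) (n : ℕ) : vertex ξ (n + 1) = vertex ξ n ++ [ξ n] := by
  simp [vertex, List.range_succ]

theorem am_Δ : Am Δ := by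
  refine crit Y Δ H (fun g hg => ⟨len hg, ?_⟩) (fun g hg v => (cl_Δ.sec v g hg).2)
    (fun g hg v => (cl_H.sec v g hg).2) am_H (fun g hg => ?_) fun g hg ξ hξ => ?_
  · obtain ⟨n, hn⟩ := good hg
    choose k _ hk using fun v => (cl_Δ.sec v g hg).2
    refine (finite_N.union ((List.finite_length_le Y n).image k)).subset ?_
    rintro h ⟨v, K⟩
    rcases le_total n v.length with hv | hv
    · obtain ⟨p, hp, K'⟩ := hn v hv
      exact Or.inl (section_unique K' K ▸ hp)
    · exact Or.inr ⟨v, hv, section_unique (hk v) K⟩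
  · obtain ⟨n, hn⟩ := good hg
    have hf := List.finite_length_le Y n
    refine ⟨2 * {v : List Y | v.length ≤ n}.ncard, fun m => ?_⟩
    refine le_trans (Set.ncard_le_ncard (t := (· ++ List.replicate (m - n) (inr 0)) ''
      {v : List Y | v.length ≤ n} ∪ (· ++ (List.replicate (m - n - 1) (inr 0) ++ [inr 1])) ''
      {v : List Y | v.length ≤ n}) ?_ ((hf.image _).union (hf.image _))) ?_
    · rintro v ⟨rfl, h⟩
      have h1 : (v.take n).length ≤ n := by simp
      rcases bad_tl hn h with h | h <;> rw [List.length_drop] at h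
      · exact Or.inl ⟨_, h1, by simp only [← h, List.take_append_drop]⟩
      · exact Or.inr ⟨_, h1, by simp only [← h, List.take_append_drop]⟩
    · refine ((Set.ncard_union_le _ _).trans (add_le_add (Set.ncard_image_le hf)
        (Set.ncard_image_le hf))).trans ?_
      rw [← two_mul]
      exact Nat.le_mul_of_pos_right _ (by positivity)
  · obtain ⟨n, hn⟩ := good hg
    have hl : ∀ (η : ℕ → Y) i, (vertex η i).length = i := fun η i => by simp [vertex]
    obtain ⟨e, he⟩ : ∃ e, ξ n = inr e := by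
      have := bad_tl hn (hξ (n + 1))
      rw [vertex_succ, List.drop_left' (hl ξ n)] at this
      rcases this with h | h
      exacts [⟨0, by simpa using h⟩, ⟨1, by simpa using h⟩]
    have key : ∀ η, (∃ h ∈ H, ∀ n, h (vertex ξ n) = vertex η n) → ∀ i, n < i → η i = ξ i := by
      rintro η ⟨h, hh, K⟩ i hi
      have : Sec h (vertex ξ i) 1 := by
        induction hi with
        | refl =>
          obtain ⟨k, hk, K1⟩ := (cl_H.sec (vertex ξ n) h hh).2
          obtain ⟨y', K2⟩ := st_H_inr hk e
          rw [vertex_succ, he]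
          exact K1.append (K2.sec (sec_one []))
        | step _ ih => rw [vertex_succ]; exact ih.append (sec_one _)
      have h2 := K (i + 1)
      rw [vertex_succ, vertex_succ, this, K i] at h2
      simpa using h2.symm
    refine Set.Finite.of_injOn (f := fun η => vertex η (n + 1)) (fun η _ => hl η _)
      (fun η h η' h' e => funext fun i => ?_) (List.finite_length_eq Y (n + 1))
    rcases lt_or_ge n i with hi | hi
    · rw [key η h i hi, key η' h' i hi]
    · exact List.map_inj_left.1 e i (List.mem_range.2 (Nat.lt_succ_of_le hi))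

end Pool.Agent.MP_684c87_al.NE
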