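import Pool.Agent.MP_684c87_al.NE.Contr
import Mathlib.GroupTheory.SpecificGroups.Alternating.Centralizer
import Mathlib.Algebra.Group.Subgroup.Finite

/-! The group is perfect and contains a copy of itself below every vertex. -/

set_option autoImplicit false

open Function Sum
open scoped commutatorElement

namespace Pool.Agent.MP_684c87_al.NE

/-- The commutator subgroup. -/
def K : Subgroup P := ⁅Δ, Δ⁆

lemma K_le : K ≤ Δ := Subgroup.commutator_le.2 fun _ hg _ hh =>
  Δ.mul_mem (Δ.mul_mem (Δ.mul_mem hg hh) (Δ.inv_mem hg)) (Δ.inv_mem hh)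

lemma alt_K {α : Type} [Fintype α] [DecidableEq α] (h5 : 5 ≤ Nat.card α) (f : Equiv.Perm α →* P)
    (hf : ∀ a ∈ alternatingGroup α, f a ∈ Δ) {a : Equiv.Perm α} (ha : a ∈ alternatingGroup α) :
    f a ∈ K := by
  have h : (alternatingGroup α).map f ≤ Δ := Subgroup.map_le_iff_le_comap.2 hf
  refine Subgroup.commutator_mono h h ?_
  rw [← Subgroup.map_commutator, commutator_alternatingGroup_eq_self h5]
  exact ⟨a, ha, rfl⟩

lemma card_Y : 5 ≤ Nat.card Y := by simp

lemma rt_K {a : Equiv.Perm Y} (h : a ∈ alternatingGroup Y) : rt a ∈ K :=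
  alt_K card_Y rt (fun _ => rt_mem) h

lemma rt_conj (a : Equiv.Perm Y) (f : Y → P) :
    rt a * wr f * (rt a)⁻¹ = wr fun y => f (a⁻¹ y) := Equiv.ext fun w => by
  rw [← map_inv]
  cases w with
  | nil => rfl
  | cons y w =>
    refine (((st_rt a _).mul (st_wr f _)).mul (st_rt a⁻¹ y) w).trans ?_
    rw [st_wr]
    simp

/-- Two prescribed sections. -/
def pr (x y : Y) (g h : P) : P := wr (Pi.mulSingle x g * Pi.mulSingle y h)

lemma exists_even {x y x' y' : Y} (h : x ≠ y) (h' : x' ≠ y') :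
    ∃ a ∈ alternatingGroup Y, a x = x' ∧ a y = y' := by
  obtain ⟨σ, h1, h2⟩ : ∃ σ : Equiv.Perm Y, σ x = x' ∧ σ y = y' := by
    refine ⟨Equiv.swap (Equiv.swap x x' y) y' * Equiv.swap x x', ?_, by simp⟩
    rw [Equiv.Perm.mul_apply, Equiv.swap_apply_left, Equiv.swap_apply_of_ne_of_ne _ h']
    intro e
    exact h ((Equiv.swap x x').injective ((Equiv.swap_apply_left _ _).trans e))
  obtain ⟨u, hu, v, hv, huv⟩ := Finset.one_lt_card.1
    (show 1 < (Finset.univ \ {x, y} : Finset Y).card by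
      rw [Finset.card_sdiff_of_subset (Finset.subset_univ _), Finset.card_pair h]
      simp)
  simp only [Finset.mem_sdiff, Finset.mem_univ, Finset.mem_insert, Finset.mem_singleton, not_or,
    true_and] at hu hv
  rcases Int.units_eq_one_or (Equiv.Perm.sign σ) with hs | hs
  · exact ⟨σ, hs, h1, h2⟩
  · refine ⟨σ * Equiv.swap u v, by simp [Equiv.Perm.mem_alternatingGroup, hs, huv], ?_, ?_⟩
    · rw [Equiv.Perm.mul_apply, Equiv.swap_apply_of_ne_of_ne (Ne.symm hu.1) (Ne.symm hv.1), h1]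
    · rw [Equiv.Perm.mul_apply, Equiv.swap_apply_of_ne_of_ne (Ne.symm hu.2) (Ne.symm hv.2), h2]

lemma pr_move {M : Subgroup P} (hM : K ≤ M) {x y : Y} (x' y' : Y) (h : x ≠ y) (h' : x' ≠ y')
    {g k : P} (H : pr x y g k ∈ M) : pr x' y' g k ∈ M := by
  obtain ⟨a, ha, rfl, rfl⟩ := exists_even h h'
  have := M.mul_mem (M.mul_mem (hM (rt_K ha)) H) (M.inv_mem (hM (rt_K ha)))
  rw [pr, rt_conj] at this
  refine (congrArg (wr · ∈ M) (funext fun u => ?_)).mp this
  simp only [Pi.mul_apply, Pi.mulSingle_apply, Equiv.Perm.inv_eq_iff_eq]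

lemma pr_K {f : Y → P} (hf : wr f ∈ Δ) (h0 : f (inr 0) = 1) (h1 : f (inr 1) = 1)
    (x : Bool × (Fin 5 → Bool)) : pr (inl x) (inr 1) (f (inl x)) (f (inl x))⁻¹ ∈ K := by
  have ha : Equiv.swap (inl x) (inr 1) * Equiv.swap (inl x) (inr 0) ∈ alternatingGroup Y := by
    simp [Equiv.Perm.mem_alternatingGroup]
  have : _ ∈ K := Subgroup.commutator_mem_commutator hf (rt_mem (inv_mem ha))
  rw [commutatorElement_def, mul_assoc, mul_assoc, ← mul_assoc (rt _), ← map_inv wr, rt_conj,
    ← map_mul, inv_inv] at this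
  refine (congrArg (wr · ∈ K) (funext fun u => ?_)).mp this
  simp only [Pi.mul_apply, Pi.mulSingle_apply, Pi.inv_apply, Equiv.Perm.mul_apply]
  by_cases e1 : u = inl x
  · simp [e1, Equiv.swap_apply_def, h0]
  by_cases e2 : u = inr 0
  · simp [e2, h0, h1]
  by_cases e3 : u = inr 1
  · simp [e3, Equiv.swap_apply_def, h1]
  · simp [Equiv.swap_apply_def, e1, e2, e3]

/-- The action of a translation on the digits. -/
def dp (t : V) : Equiv.Perm (Fin 5 → Bool) :=
  ⟨fun d => low (dig d + t), fun d => low (dig d + -t), fun d => by simp [low_add, low_dig],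
    fun d => by simp [low_add, low_dig]⟩

lemma T_eq (t : V) : ∃ a ∈ alternatingGroup Y, T t = rt a * wr fun y => T (cy t y) := by
  refine ⟨Equiv.Perm.sumCongr (Equiv.prodCongrRight fun _ => dp t) 1, ?_,
    eq_rt_wr rfl fun y => ?_⟩
  · simp [Equiv.Perm.mem_alternatingGroup, Equiv.Perm.sign_sumCongr,
      Equiv.Perm.sign_prodCongrRight]
  · cases y <;> exact st_T t _

lemma wr_T (t : V) : (wr fun y => T (cy t y)) ∈ Δ := by
  obtain ⟨a, ha, e⟩ := T_eq t
  exact (Δ.mul_mem_cancel_left (rt_mem ha)).1 (e ▸ T_mem t)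

lemma pr_T (t : V) (x : Bool × (Fin 5 → Bool)) {u v : Y} (h : u ≠ v) :
    pr u v (T (cy t (inl x))) (T (cy t (inl x)))⁻¹ ∈ K :=
  pr_move le_rfl u v (by simp) h (pr_K (wr_T t) T_zero T_zero x)

/-- Regrouping of the sections. -/
def Ψ : ((Fin 5 → Bool) → Bool → P) →* (Y → P) :=
  MonoidHom.mk' (fun F => Sum.elim (fun x => F x.2 x.1) 1) fun _ _ => funext fun y => by
    cases y <;> simp

lemma T_K (t : V) : T t ∈ K := by
  obtain ⟨a, ha, e⟩ := T_eq t
  rw [e]
  refine K.mul_mem (rt_K ha) ?_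
  have := Subgroup.pi_mem_of_mulSingle_mem (H := K.comap (wr.comp Ψ))
    (fun d b => T (cy t (inl (b, d)))) fun d => by
      refine (congrArg (wr · ∈ K) (funext fun u => ?_)).mp
        (pr_T t (false, d) (u := inl (false, d)) (v := inl (true, d)) (by simp))
      rcases u with ⟨b, d'⟩ | e
      · by_cases h : d' = d
        · cases b <;> simp [Ψ, h, cy, sg, T_neg]
        · simp [Ψ, h]
      · simp [Ψ]
  refine (congrArg (wr · ∈ K) (funext fun u => ?_)).mp this
  cases u
  · rfl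
  · exact T_zero.symm

theorem perfect : Δ ≤ K := by
  rw [Δ, Subgroup.closure_le]
  rintro _ ⟨(a | a) | (ρ | j), rfl⟩
  exacts [rt_K a.2, alt_K card_Y hat (fun _ => hat_mem) a.2,
    alt_K (by simp) C (fun _ => C_mem) ρ.2, T_K _]

/-- One prescribed section. -/
def at1 (y : Y) : P →* P := wr.comp (MonoidHom.mulSingle (fun _ : Y => P) y)

lemma pr_eq (x y : Y) (g h : P) : pr x y g h = at1 x g * at1 y h := map_mul wr _ _

lemma at1_comm {x y : Y} (h : x ≠ y) (g k : P) : Commute (at1 x g) (at1 y k) :=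
  (Pi.mulSingle_commute (f := fun _ : Y => P) h g k).map wr

lemma exists_pr {g : P} (hg : g ∈ Δ) : ∃ g', at1 (inr 0) g * at1 (inr 1) g' ∈ Δ := by
  have h01 : (inr 0 : Y) ≠ inr 1 := by simp
  have hh : ∀ a ∈ alternatingGroup Y, pr (inr 0) (inr 1) (hat a) (rt a) ∈ Δ := fun a ha => by
    have := hat_mem ha
    rw [eq_rt_wr (a := 1) rfl (st_hat a), map_one, one_mul] at this
    refine (congrArg (wr · ∈ Δ) (funext fun u => ?_)).mp this
    simp only [Pi.mul_apply, Pi.mulSingle_apply]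
    split_ifs with h1 h2
    · exact absurd (h1.symm.trans h2) h01
    all_goals simp
  refine Δ_ind (q := fun g => ∃ g', at1 (inr 0) g * at1 (inr 1) g' ∈ Δ) ⟨1, by simp⟩
    (fun p hp g _ ⟨g', H⟩ => ?_) hg
  obtain ⟨p', hp'⟩ : ∃ p', pr (inr 0) (inr 1) p p' ∈ Δ := by
    rcases hp with ⟨t, rfl⟩ | ⟨ρ, h, rfl⟩ | ⟨a, h, rfl⟩ | ⟨a, h, rfl⟩
    · have := K_le (pr_T (t + t) (false, zd) h01)
      rw [cy, hi_dig_add_even] at this
      exact ⟨_, this⟩
    · have := C_mem h
      rw [eq_rt_wr rfl (st_C ρ), Δ.mul_mem_cancel_left (rt_mem (by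
        simpa [Equiv.Perm.mem_alternatingGroup, Equiv.Perm.sign_sumCongr] using h))] at this
      refine ⟨1, pr_move K_le (x := z) (y := inr 0) _ _ (by simp [z]) h01
        ((congrArg (wr · ∈ Δ) (funext fun u => ?_)).mp this)⟩
      simp [Pi.mulSingle_apply]
    · exact ⟨_, hh a h⟩
    · refine ⟨hat a, pr_move K_le (x := inr 1) (y := inr 0) _ _ h01.symm h01 ?_⟩
      rw [pr_eq, (at1_comm h01.symm _ _).eq, ← pr_eq]
      exact hh a h
  refine ⟨p' * g', ?_⟩
  rw [map_mul, map_mul, (at1_comm h01 g p').mul_mul_mul_comm, ← pr_eq]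
  exact Δ.mul_mem hp' H

lemma comm_aux {a b c d : P} (h : Commute b (c * d)) (h' : Commute d a) :
    ⁅a * b, c * d⁆ = ⁅a, c⁆ :=
  calc a * b * (c * d) * (a * b)⁻¹ * (c * d)⁻¹
      = a * (b * (c * d) * b⁻¹) * a⁻¹ * (c * d)⁻¹ := by group
    _ = a * c * (d * a⁻¹ * d⁻¹) * c⁻¹ := by rw [h.mul_inv_cancel]; group
    _ = _ := by rw [h'.inv_right.mul_inv_cancel]; rfl

theorem at1_mem (y : Y) {g : P} (hg : g ∈ Δ) : at1 y g ∈ Δ := by
  have h0 : K ≤ Δ.comap (at1 (inr 0)) := Subgroup.commutator_le.2 fun g hg k hk => by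
    obtain ⟨g', H⟩ := exists_pr hg
    obtain ⟨k', H'⟩ := exists_pr hk
    rw [← pr_eq] at H'
    have := K_le (Subgroup.commutator_mem_commutator H
      (pr_move K_le (inr 0) (inr 2) (by simp) (by simp) H'))
    rwa [pr_eq, comm_aux ((at1_comm (by simp) _ _).mul_right (at1_comm (by simp) _ _))
      (at1_comm (by simp) _ _), ← map_commutatorElement] at this
  obtain ⟨y', hy⟩ : ∃ y', y ≠ y' := by
    cases y
    exacts [⟨inr 0, by simp⟩, ⟨z, by simp [z]⟩]
  have := pr_move K_le (x := inr 0) (y := inr 1) y y' (by simp) hy (g := g) (k := 1) (by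
    simpa [pr_eq] using h0 (perfect hg))
  simpa [pr_eq] using this

/-- The copy below a vertex. -/
def atw : List Y → P →* P
  | [] => MonoidHom.id P
  | y :: v => (at1 y).comp (atw v)

lemma atw_mem (v : List Y) {g : P} (hg : g ∈ Δ) : atw v g ∈ Δ := by
  induction v with
  | nil => exact hg
  | cons y v ih => exact at1_mem y ih

lemma at1_cons (y : Y) (g : P) (y' : Y) (w : List Y) :
    at1 y g (y' :: w) = y' :: (if y' = y then g w else w) := by
  refine (st_wr _ y' w).trans ?_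
  simp only [MonoidHom.mulSingle_apply, Pi.mulSingle_apply]
  split_ifs <;> rfl

lemma atw_append (v : List Y) (g : P) (w : List Y) : atw v g (v ++ w) = v ++ g w := by
  induction v with
  | nil => rfl
  | cons y v ih => exact (at1_cons y _ y (v ++ w)).trans (by rw [if_pos rfl, ih]; rfl)

lemma atw_fix (v : List Y) (g : P) {w : List Y} (h : ¬ v <+: w) : atw v g w = w := by
  induction v generalizing w with
  | nil => exact absurd List.nil_prefix h
  | cons y v ih =>
    cases w with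
    | nil => rfl
    | cons y' w =>
      refine (at1_cons y _ y' _).trans ?_
      split_ifs with e
      · rw [ih fun h' => h (List.cons_prefix_cons.2 ⟨e.symm, h'⟩)]
      · rfl

lemma atw_inj (v : List Y) : Injective (atw v) := fun g h e => Equiv.ext fun w =>
  List.append_cancel_left (as := v) (by rw [← atw_append, e, atw_append])

theorem level_trans (u v : List Y) (h : u.length = v.length) : ∃ g ∈ Δ, g u = v := by
  induction u generalizing v with
  | nil => exact ⟨1, Δ.one_mem, (List.length_eq_zero_iff.1 h.symm).symm⟩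
  | cons x u ih =>
    obtain ⟨y, v, rfl⟩ := List.exists_cons_of_length_eq_add_one h.symm
    obtain ⟨g, hg, rfl⟩ := ih v (Nat.succ.inj h)
    obtain ⟨a, ha, rfl⟩ : ∃ a ∈ alternatingGroup Y, a x = y := by
      by_cases e : x = y
      · exact ⟨1, one_mem _, e⟩
      · obtain ⟨a, ha, e1, -⟩ := exists_even e (Ne.symm e)
        exact ⟨a, ha, e1⟩
    refine ⟨rt a * at1 x g, Δ.mul_mem (rt_mem ha) (at1_mem x hg), ?_⟩
    rw [Equiv.Perm.mul_apply, at1_cons, if_pos rfl]
    rfl

theorem normal_contains (M : Subgroup Δ) (hM : M.Normal) (h0 : M ≠ ⊥) :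
    ∃ j : Δ →* Δ, Injective j ∧ j.range ≤ M := by
  obtain ⟨m, hm, hm1⟩ := M.bot_or_exists_ne_one.resolve_left h0
  obtain ⟨v, hv⟩ : ∃ v, m.1 v ≠ v := by
    by_contra h
    exact hm1 (Subtype.ext (Equiv.ext fun v => not_not.1 fun h' => h ⟨v, h'⟩))
  let j : Δ →* Δ := ((atw v).comp Δ.subtype).codRestrict Δ fun g => atw_mem v g.2
  refine ⟨j, fun g h e => Subtype.ext (atw_inj v (congrArg Subtype.val e)), ?_⟩
  have key : K ≤ (M.map Δ.subtype).comap (atw v) := Subgroup.commutator_le.2 fun g hg k hk => by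
    have h1 : j ⟨g, hg⟩ * (m * (j ⟨g, hg⟩)⁻¹ * m⁻¹) ∈ M := by
      simpa [mul_assoc] using M.mul_mem (hM.conj_mem _ hm (j ⟨g, hg⟩)) (M.inv_mem hm)
    have h2 := M.mul_mem h1 (hM.conj_mem _ (M.inv_mem h1) (j ⟨k, hk⟩))
    refine ⟨_, h2, ?_⟩
    rw [map_commutatorElement, ← comm_aux (b := m.1 * (atw v g)⁻¹ * m.1⁻¹) (d := 1) ?_
      (Commute.one_left _), mul_one, commutatorElement_def]
    · simp only [mul_assoc]
      rfl
    rw [mul_one]
    refine Equiv.Perm.Disjoint.commute fun w => ?_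
    by_cases h : v <+: w
    · left
      rw [Equiv.Perm.mul_apply, Equiv.Perm.mul_apply, ← map_inv, atw_fix]
      · simp
      · intro h'
        have h3 : m.1 v <+: w := by simpa using pre m.2 h'
        exact hv ((List.prefix_of_prefix_length_le h3 h (len m.2 v).le).eq_of_length (len m.2 v))
    · exact Or.inr (atw_fix v k h)
  rintro _ ⟨g, rfl⟩
  obtain ⟨x, hx, e⟩ := key (perfect g.2)
  exact (show x = j g from Subtype.ext e) ▸ hx

end Pool.Agent.MP_684c87_al.NE
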