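import Mathlib.GroupTheory.Finiteness
import Mathlib.GroupTheory.QuotientGroup.Basic
import Mathlib.Algebra.BigOperators.Finsupp.Basic
import Mathlib.Data.Real.Basic
import Mathlib.Data.Fintype.BigOperators
import Mathlib.Algebra.Order.BigOperators.Group.Finset
import Mathlib.Tactic.Positivity
import Mathlib.Tactic.FieldSimp

/-! Subquotients, and symmetric measures attached to a finite family. -/

set_option autoImplicit false

open Function

namespace Pool.Agent.MP_684c87_al.NE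

variable {G D ι : Type} [Group G] [Group D]

/-- A family together with its inverses. -/
def sy (t : ι → G) : ι × Bool → G := fun q => if q.2 then t q.1 else (t q.1)⁻¹

lemma map_sy (π : G →* D) (t : ι → G) (q : ι × Bool) : π (sy t q) = sy (fun i => π (t i)) q := by
  unfold sy
  split_ifs <;> simp

lemma exists_measure [Fintype ι] [Nonempty ι] (t : ι → G)
    (ht : Subgroup.closure (Set.range t) = ⊤) : ∃ μ : G →₀ ℝ, ((∀ g, 0 ≤ μ g) ∧
      (μ.sum fun _ a => a) = 1 ∧ Subsemigroup.closure (μ.support : Set G) = ⊤) ∧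
      (∀ g, μ g⁻¹ = μ g) ∧ ∀ F : G → ℝ, (μ.sum fun h a => a * F h) =
        ∑ q, 1 / Fintype.card (ι × Bool) * F (sy t q) := by
  classical
  obtain ⟨p, hp⟩ : ∃ p : ℝ, p = 1 / Fintype.card (ι × Bool) := ⟨_, rfl⟩
  have N0 : (0 : ℝ) < Fintype.card (ι × Bool) := by exact_mod_cast Fintype.card_pos
  have p0 : 0 < p := by rw [hp]; positivity
  rw [← hp]
  let μ : G →₀ ℝ := ∑ q, Finsupp.single (sy t q) p
  have hμ : ∀ g, μ g = ∑ q, if sy t q = g then p else 0 := fun g => by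
    simp only [μ, Finsupp.finsetSum_apply, Finsupp.single_apply]
  have hsum : ∀ F : G → ℝ, (μ.sum fun h a => a * F h) = ∑ q, p * F (sy t q) := fun F => by
    simp only [μ]
    rw [← Finsupp.sum_finsetSum_index (by simp) (by simp [add_mul])]
    refine Finset.sum_congr rfl fun i _ => ?_
    rw [Finsupp.sum_single_index (by simp)]
  have hsupp : ∀ q, sy t q ∈ Subsemigroup.closure (μ.support : Set G) := fun q => by
    refine Subsemigroup.subset_closure (Finsupp.mem_support_iff.2 ?_)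
    rw [hμ]
    refine (Finset.sum_pos' (fun j _ => by positivity) ⟨q, Finset.mem_univ _, ?_⟩).ne'
    simpa using p0
  refine ⟨μ, ⟨fun g => by rw [hμ]; positivity, ?_, ?_⟩, fun g => ?_, hsum⟩
  · have := hsum fun _ => 1
    simp only [mul_one] at this
    rw [this, Finset.sum_const, Finset.card_univ, nsmul_eq_mul, hp]
    field_simp
  · rw [eq_top_iff]
    intro g _
    have hg : g ∈ Subgroup.closure (Set.range t) := ht ▸ Subgroup.mem_top g
    induction hg using Subgroup.closure_induction_left with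
    | one =>
      have i := Classical.arbitrary ι
      simpa [sy] using Subsemigroup.mul_mem _ (hsupp (i, true)) (hsupp (i, false))
    | mul_left x hx y _ ih =>
      obtain ⟨i, rfl⟩ := hx
      exact Subsemigroup.mul_mem _ (hsupp (i, true)) (ih trivial)
    | inv_mul_cancel x hx y _ ih =>
      obtain ⟨i, rfl⟩ := hx
      exact Subsemigroup.mul_mem _ (hsupp (i, false)) (ih trivial)
  · rw [hμ, hμ]
    refine Fintype.sum_equiv ((Equiv.refl ι).prodCongr (Involutive.toPerm _ Bool.not_not)) _ _ ?_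
    rintro ⟨i, _ | _⟩ <;> simp [sy, inv_eq_iff_eq_inv]

/-- `D` is a quotient of a subgroup of `G`. -/
def Sub (D : Type) [Group D] (G : Type) [Group G] : Prop :=
  ∃ (K : Type) (_ : Group K) (i : K →* G) (π : K →* D), Surjective π ∧ i.ker ≤ π.ker

lemma sub_self : Sub D D := ⟨D, inferInstance, .id D, .id D, surjective_id, le_rfl⟩

lemma Sub.of_inj {H : Type} [Group H] (f : H →* G) (hf : Injective f) (h : Sub D H) : Sub D G := by
  obtain ⟨K, _, i, π, h1, h2⟩ := h
  exact ⟨K, _, f.comp i, π, h1, fun k hk => h2 (hf (hk.trans f.map_one.symm))⟩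

lemma Sub.of_surj {Q : Type} [Group Q] (f : G →* Q) (hf : Surjective f) (h : Sub D Q) :
    Sub D G := by
  obtain ⟨K, _, i, π, h1, h2⟩ := h
  refine ⟨((i.comp (.fst K G)).eqLocus (f.comp (.snd K G)) : Subgroup (K × G)), inferInstance,
    (MonoidHom.snd K G).comp (Subgroup.subtype _),
    π.comp ((MonoidHom.fst K G).comp (Subgroup.subtype _)), fun d => ?_, ?_⟩
  · obtain ⟨k, rfl⟩ := h1 d
    obtain ⟨g, hg⟩ := hf (i k)
    exact ⟨⟨(k, g), hg.symm⟩, rfl⟩
  · rintro ⟨⟨k, g⟩, hk⟩ hg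
    obtain rfl : g = 1 := hg
    exact h2 (show i k = 1 from hk.trans f.map_one)

lemma Sub.ext (hD : ∀ M : Subgroup D, M.Normal → M ≠ ⊥ → ∃ j : D →* D, Injective j ∧ j.range ≤ M)
    (N : Subgroup G) [N.Normal] (h : Sub D G) : Sub D N ∨ Sub D (G ⧸ N) := by
  obtain ⟨K, _, i, π, h1, h2⟩ := h
  by_cases hM : (N.comap i).map π = ⊥
  · refine Or.inr ⟨K, _, (QuotientGroup.mk' N).comp i, π, h1, fun k hk => ?_⟩
    have : π k ∈ (N.comap i).map π := ⟨k, (QuotientGroup.eq_one_iff (i k)).1 hk, rfl⟩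
    rwa [hM] at this
  · obtain ⟨j, hj, hr⟩ := hD _ (Subgroup.Normal.map inferInstance π h1) hM
    refine Or.inl ⟨(((π.comp (N.comap i).subtype).comp (.fst _ D)).eqLocus (j.comp (.snd _ D)) :
      Subgroup (N.comap i × D)), inferInstance,
      ((i.subgroupComap N).comp (.fst _ D)).comp (Subgroup.subtype _),
      (MonoidHom.snd _ D).comp (Subgroup.subtype _), fun d => ?_, ?_⟩
    · obtain ⟨k, hk, e⟩ := hr ⟨d, rfl⟩
      exact ⟨⟨(⟨k, hk⟩, d), e⟩, rfl⟩
    · rintro ⟨⟨k, d⟩, hk⟩ hg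
      have e : i k = 1 := congrArg Subtype.val hg
      exact hj ((hk.symm.trans (h2 e)).trans j.map_one.symm)

lemma Sub.gen (s : ι → D) (hs : Subgroup.closure (Set.range s) = ⊤) (h : Sub D G) :
    ∃ (t : ι → G) (π : Subgroup.closure (Set.range t) →* D), Surjective π ∧
      ∀ i, π ⟨t i, Subgroup.subset_closure ⟨i, rfl⟩⟩ = s i := by
  obtain ⟨K, _, i, π, h1, h2⟩ := h
  choose r hr using h1
  let ψ : i.range →* D := i.rangeRestrict.liftOfSurjective i.rangeRestrict_surjective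
    ⟨π, by rwa [MonoidHom.ker_rangeRestrict]⟩
  have hψ : ∀ k, ψ (i.rangeRestrict k) = π k := fun k =>
    MonoidHom.liftOfRightInverse_comp_apply _ _ _ _ _
  have hle : Subgroup.closure (Set.range fun q => i (r (s q))) ≤ i.range :=
    (Subgroup.closure_le _).2 (by rintro _ ⟨q, rfl⟩; exact ⟨_, rfl⟩)
  have e : ∀ q, ψ.comp (Subgroup.inclusion hle)
      ⟨i (r (s q)), Subgroup.subset_closure ⟨q, rfl⟩⟩ = s q := fun q => (hψ _).trans (hr _)
  refine ⟨fun q => i (r (s q)), ψ.comp (Subgroup.inclusion hle), ?_, e⟩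
  rw [← MonoidHom.range_eq_top, eq_top_iff, ← hs, Subgroup.closure_le]
  rintro _ ⟨q, rfl⟩
  exact ⟨_, e q⟩

lemma closure_range_mk (t : ι → G) : Subgroup.closure (Set.range fun i =>
    (⟨t i, Subgroup.subset_closure ⟨i, rfl⟩⟩ : Subgroup.closure (Set.range t))) = ⊤ := by
  rw [← Subgroup.closure_closure_coe_preimage]
  congr 1
  ext ⟨x, hx⟩
  simp

lemma Sub.fg [Finite ι] (s : ι → D) (hs : Subgroup.closure (Set.range s) = ⊤) (h : Sub D G) :
    ∃ H : Subgroup G, H.FG ∧ Sub D H := by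
  obtain ⟨t, π, h1, -⟩ := h.gen s hs
  exact ⟨_, (Subgroup.fg_iff _).2 ⟨_, rfl, Set.finite_range t⟩, _, inferInstance, .id _, π, h1,
    fun k hk => by rw [show k = 1 from hk]; exact one_mem _⟩

lemma Sub.base [Fintype ι] [Nonempty ι] (s : ι → D) (hs : Subgroup.closure (Set.range s) = ⊤)
    (u : D → ℝ) (hu : ∀ g, u g = ∑ q, 1 / Fintype.card (ι × Bool) * u (g * sy s q))
    (hb : ∃ C, ∀ g, |u g| ≤ C) (hn : ∃ g h, u g ≠ u h) (h : Sub D G) :
    ∃ (H : Subgroup G) (μ : H →₀ ℝ), ((∀ g, 0 ≤ μ g) ∧ (μ.sum fun _ a => a) = 1 ∧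
      Subsemigroup.closure (μ.support : Set H) = ⊤) ∧ (∀ g, μ g⁻¹ = μ g) ∧
      ∃ f : H → ℝ, (∃ C, ∀ g, |f g| ≤ C) ∧ (∀ g, f g = μ.sum fun h a => a * f (g * h)) ∧
        ∃ g h, f g ≠ f h := by
  obtain ⟨t, π, h1, h2⟩ := h.gen s hs
  obtain ⟨μ, m1, m2, m3⟩ := exists_measure _ (closure_range_mk t)
  obtain ⟨C, hC⟩ := hb
  obtain ⟨g, g', hg⟩ := hn
  obtain ⟨g, rfl⟩ := h1 g
  obtain ⟨g', rfl⟩ := h1 g'
  refine ⟨_, μ, m1, m2, fun x => u (π x), ⟨C, fun _ => hC _⟩, fun x => ?_, g, g', hg⟩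
  refine (hu _).trans ((m3 fun h => u (π (x * h))).trans ?_).symm
  simp only [map_mul, map_sy, h2]

end Pool.Agent.MP_684c87_al.NE
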