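import Pool.Agent.MP_684c87_al.NE.Gens
import Mathlib.Data.Pi.Interval
import Mathlib.Data.Int.Interval

/-! The group is contracting. -/

set_option autoImplicit false

open Function Sum

namespace Pool.Agent.MP_684c87_al.NE

/-- The carry after reading a word. -/
def cw : V → List Y → V
  | t, [] => t
  | t, y :: w => cw (cy t y) w

lemma sec_T (t : V) (v : List Y) : Sec (T t) v (T (cw t v)) := by
  induction v generalizing t with
  | nil => exact fun _ => rfl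
  | cons y v ih => exact (st_T t y).sec (ih _)

lemma sec_C (ρ : Equiv.Perm (Fin 5)) (v : List Y) :
    Sec (C ρ) v (C (if ∀ y ∈ v, y = z then ρ else 1)) := by
  induction v with
  | nil => exact fun _ => by simp; rfl
  | cons y v ih =>
    refine (st_C ρ y).sec ?_
    by_cases h : y = z
    · simpa only [List.forall_mem_cons, h, true_and, if_true] using ih
    · simpa [h] using sec_one v

/-- The vertices of the zero ray. -/
abbrev zn (n : ℕ) : List Y := List.replicate n z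

lemma L_zn (π : List Y → Equiv.Perm (Fin 5)) (n : ℕ) : L π (zn n) = zn n := by
  induction n generalizing π with
  | zero => rfl
  | succ n ih => exact congrArg (z :: ·) (ih _)

lemma T_free (t : V) (h : ∀ n, T t (zn n) = zn n) : t = 0 := by
  induction hm : ∑ j, (t j).natAbs using Nat.strong_induction_on generalizing t with
  | _ m ih =>
    have e : ∀ n, T t (zn (n + 1)) = inl (false, low t) :: T (hi t) (zn n) := fun n => by
      rw [zn, List.replicate_succ, st_T]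
      simp [z, mv, cy, sg, dig_zd]
    have hl : low t = zd := by
      have := h 1
      rw [e] at this
      simpa [z] using (List.cons.inj this).1
    have hev : ∀ j, t j % 2 = 0 := fun j => by
      have := congrFun hl j
      simp only [low, zd, decide_eq_false_iff_not] at this
      omega
    by_contra ht
    obtain ⟨j0, hj0⟩ := Function.ne_iff.1 ht
    have hj0' : t j0 ≠ 0 := hj0
    have hlt : ∑ j, (hi t j).natAbs < m := by
      rw [← hm]
      refine Finset.sum_lt_sum (fun j _ => ?_) ⟨j0, Finset.mem_univ _, ?_⟩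
      · have := hev j
        simp only [hi]
        omega
      · have := hev j0
        simp only [hi]
        omega
    have h1 : t j0 / 2 = 0 := congrFun (ih _ hlt (hi t)
      (fun n => (List.cons.inj ((e n).symm.trans (h (n + 1)))).2) rfl) j0
    have := hev j0
    omega

/-- All coordinates are in `{-1, 0, 1}`. -/
def Sm (t : V) : Prop := ∀ j, -1 ≤ t j ∧ t j ≤ 1

lemma sm_cw (v : List Y) (m : ℕ) (t : V) (ht : ∀ j, -(m + 1 : ℤ) ≤ t j ∧ t j ≤ m + 1)
    (hv : m ≤ v.length) : Sm (cw t v) := by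
  induction v generalizing t m with
  | nil =>
    obtain rfl : m = 0 := by simpa using hv
    intro j
    simpa [cw] using ht j
  | cons y w ih =>
    refine ih (m - 1) _ (fun j => ?_) (by simp at hv; omega)
    rcases y with ⟨b, d⟩ | e
    · have h1 := ht j
      have h2 := dig_cases d j
      cases b <;> simp only [cy, sg, hi, Pi.add_apply, Pi.neg_apply, if_true, if_false,
        Bool.false_eq_true] <;> omega
    · simp only [cy, Pi.zero_apply]
      omega

lemma exists_sm (t : V) : ∃ m : ℕ, ∀ v : List Y, m ≤ v.length → Sm (cw t v) := by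
  refine ⟨∑ j, (t j).natAbs, fun v hv => sm_cw v _ t (fun j => ?_) hv⟩
  have := Finset.single_le_sum (f := fun j => (t j).natAbs) (fun _ _ => Nat.zero_le _)
    (Finset.mem_univ j)
  omega

/-- Normal forms. -/
def fm (s : V) (ρ : alternatingGroup (Fin 5)) (s' : V) : P := T s * C ρ * T s'

lemma fm_mem (s : V) (ρ : alternatingGroup (Fin 5)) (s' : V) : fm s ρ s' ∈ Δ :=
  Δ.mul_mem (Δ.mul_mem (T_mem _) (C_mem ρ.2)) (T_mem _)

lemma sec_fm (s : V) (ρ : alternatingGroup (Fin 5)) (s' : V) (v : List Y) : Sec (fm s ρ s') v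
    (fm (cw s (C ρ (T s' v))) (if ∀ y ∈ T s' v, y = z then ρ else 1) (cw s' v)) := by
  have := ((sec_T s _).mul (sec_C ρ (T s' v))).mul (sec_T s' v)
  rwa [fm, fm, apply_ite Subtype.val]

lemma st_fm_inl (s : V) (ρ : alternatingGroup (Fin 5)) (s' : V) (x : Bool × (Fin 5 → Bool)) :
    ∃ x' t ρ' t', St (fm s ρ s') (inl x) (inl x') (fm t ρ' t') :=
  ⟨_, _, _, _, fun w => (sec_fm s ρ s' [inl x] w).trans rfl⟩

lemma st_fm_inr (s : V) (ρ : alternatingGroup (Fin 5)) (s' : V) (e : Fin 5) :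
    ∃ e', St (fm s ρ s') (inr e) (inr e') 1 :=
  ⟨_, by simpa [T_zero, cy, mv, fm, C_eq] using
    ((st_T s (inr _)).mul (st_L_inr _ e)).mul (st_T s' (inr e))⟩

/-- Rooted and directed elements. -/
def B : Set P := {p | ∃ a : alternatingGroup Y, p = hat a ∨ p = rt a}

lemma one_B : 1 ∈ B := ⟨1, Or.inl (map_one hat).symm⟩

lemma st_hat_B (a : alternatingGroup Y) (y : Y) : ∃ h ∈ B, St (hat a) y y h := by
  refine ⟨_, ?_, st_hat a y⟩
  split_ifs
  exacts [⟨a, Or.inl rfl⟩, ⟨a, Or.inr rfl⟩, one_B]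

lemma cl_B : Cl B := by
  rintro _ ⟨a, rfl | rfl⟩
  · exact ⟨rfl, fun y => ⟨y, st_hat_B a y⟩⟩
  · exact ⟨rfl, fun y => ⟨_, _, one_B, st_rt a y⟩⟩

/-- The nucleus is contained in this set. -/
def N : Set P := {p | ∃ s ρ s', Sm s ∧ Sm s' ∧ p = fm s ρ s'} ∪ B

/-- The same without the bound on the translations. -/
def U : Set P := {p | ∃ s ρ s', p = fm s ρ s'} ∪ B

lemma N_U : N ⊆ U := Set.union_subset_union_left _ fun _ ⟨s, ρ, s', _, _, h⟩ => ⟨s, ρ, s', h⟩

lemma U_mem {p : P} (h : p ∈ U) : p ∈ Δ := by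
  rcases h with ⟨s, ρ, s', rfl⟩ | ⟨a, rfl | rfl⟩
  exacts [fm_mem _ _ _, hat_mem a.2, rt_mem a.2]

lemma finite_N : N.Finite := by
  have hfin : {s : V | Sm s}.Finite :=
    (Set.finite_Icc (fun _ => -1 : V) (fun _ => 1)).subset fun s hs =>
      ⟨fun j => (hs j).1, fun j => (hs j).2⟩
  refine Set.Finite.union (((hfin.prod (Set.finite_univ.prod hfin)).image
    fun q => fm q.1 q.2.1 q.2.2).subset ?_) (((Set.finite_range fun a : alternatingGroup Y =>
      hat a).union (Set.finite_range fun a : alternatingGroup Y => rt a)).subset ?_)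
  · rintro _ ⟨s, ρ, s', h, h', rfl⟩
    exact ⟨(s, ρ, s'), ⟨h, trivial, h'⟩, rfl⟩
  · rintro _ ⟨a, rfl | rfl⟩
    exacts [Or.inl ⟨a, rfl⟩, Or.inr ⟨a, rfl⟩]

lemma cl_U : Cl U := by
  rintro _ (⟨s, ρ, s', rfl⟩ | h)
  · refine ⟨rfl, ?_⟩
    rintro (x | e)
    · obtain ⟨x', t, ρ', t', H⟩ := st_fm_inl s ρ s' x
      exact ⟨_, _, Or.inl ⟨_, _, _, rfl⟩, H⟩
    · obtain ⟨e', H⟩ := st_fm_inr s ρ s' e
      exact ⟨_, _, Or.inr one_B, H⟩
  · refine ⟨(cl_B _ h).1, fun y => ?_⟩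
    obtain ⟨y', k, hk, H⟩ := (cl_B _ h).2 y
    exact ⟨y', k, Or.inr hk, H⟩

/-- All deep sections lie in `N`. -/
def Good (g : P) : Prop := ∃ n, ∀ v : List Y, n ≤ v.length → SecIn N g v

lemma good_U {p : P} (h : p ∈ U) : Good p := by
  rcases h with ⟨s, ρ, s', rfl⟩ | h
  · obtain ⟨m, hm⟩ := exists_sm s
    obtain ⟨m', hm'⟩ := exists_sm s'
    refine ⟨max m m', fun v hv => ⟨_, Or.inl ⟨_, _, _, hm _ ?_,
      hm' v ((le_max_right _ _).trans hv), rfl⟩, sec_fm s ρ s' v⟩⟩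
    rw [len (C_mem ρ.2), len (T_mem _)]
    exact (le_max_left _ _).trans hv
  · exact ⟨0, fun v _ => let ⟨k, hk, K⟩ := (cl_B.sec v p h).2; ⟨k, Or.inr hk, K⟩⟩

lemma good_of_level {g : P} (n : ℕ)
    (h : ∀ v : List Y, v.length = n → ∃ k, Sec g v k ∧ Good k) : Good g := by
  choose! k hk hk' using h
  choose! M hM using hk'
  obtain ⟨m, hm⟩ := ((List.finite_length_eq Y n).image M).bddAbove
  refine ⟨n + m, fun v hv => ?_⟩
  have h1 : (v.take n).length = n := by simp; omega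
  have h2 : M (v.take n) ≤ m := hm ⟨_, h1, rfl⟩
  obtain ⟨p, hp, H⟩ := hM _ h1 (v.drop n) (by simp; omega)
  refine ⟨p, hp, ?_⟩
  have := (hk _ h1).append H
  rwa [List.take_append_drop] at this

lemma good_of_step {g : P} (h : ∀ y, ∃ y', ∃ k ∈ U, St g y y' k) : Good g :=
  good_of_level 1 fun v hv => by
    obtain ⟨y, rfl⟩ := List.length_eq_one_iff.1 hv
    obtain ⟨y', k, hk, H⟩ := h y
    exact ⟨k, H.sec fun w => by rw [(cl_U k hk).1]; rfl, good_U hk⟩

lemma C_mul_fm (ρ ρ' : alternatingGroup (Fin 5)) (s' : V) :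
    C ρ * fm 0 ρ' s' = fm 0 (ρ * ρ') s' := by simp [fm, T_zero, mul_assoc]

lemma good_C_fm (ρ : alternatingGroup (Fin 5)) (s : V) (ρ' : alternatingGroup (Fin 5)) (s' : V) :
    Good (C ρ * fm s ρ' s') := by
  by_cases hs : s = 0
  · rw [hs, C_mul_fm]
    exact good_U (Or.inl ⟨_, _, _, rfl⟩)
  obtain ⟨n, hn⟩ := not_forall.1 fun h => hs (T_free s h)
  refine good_of_level n fun v hv => ⟨_, (sec_C ρ _).mul (sec_fm s ρ' s' v), good_U (Or.inl ?_)⟩
  by_cases hu : ∀ y ∈ T s' v, y = z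
  · have h1 : T s' v = zn n := List.eq_replicate_iff.2 ⟨by rw [len (T_mem _), hv], hu⟩
    have h2 : ¬ ∀ y ∈ fm s ρ' s' v, y = z := fun h2 => hn (by
      have h3 : fm s ρ' s' v = zn n :=
        List.eq_replicate_iff.2 ⟨by rw [len (fm_mem _ _ _), hv], h2⟩
      rwa [fm, Equiv.Perm.mul_apply, Equiv.Perm.mul_apply, h1, C_eq, L_zn] at h3)
    rw [if_neg h2, map_one, one_mul]
    exact ⟨_, _, _, rfl⟩
  · rw [if_neg hu]
    refine ⟨0, if ∀ y ∈ fm s ρ' s' v, y = z then ρ else 1,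
      cw s (C ρ' (T s' v)) + cw s' v, ?_⟩
    simp [fm, T_zero, T_add, apply_ite Subtype.val]

lemma good_fm_B (s : V) (ρ : alternatingGroup (Fin 5)) (s' : V) {u : P} (hu : u ∈ B) :
    Good (fm s ρ s' * u) := by
  refine good_of_step fun y => ?_
  obtain ⟨a, rfl | rfl⟩ := hu
  · rcases y with x | e
    · obtain ⟨x', t, ρ', t', H⟩ := st_fm_inl s ρ s' x
      exact ⟨_, _, Or.inl ⟨t, ρ', t', mul_one _⟩, H.mul (st_hat_inl a x)⟩
    · obtain ⟨e', H⟩ := st_fm_inr s ρ s' e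
      obtain ⟨k, hk, K⟩ := st_hat_B a (inr e)
      exact ⟨_, _, Or.inr (by rwa [one_mul]), H.mul K⟩
  · obtain ⟨y', k, hk, K⟩ := (cl_U _ (Or.inl ⟨s, ρ, s', rfl⟩)).2 (a.1 y)
    exact ⟨_, _, by rwa [mul_one], K.mul (st_rt a y)⟩

lemma good_mul {p u : P} (hp : p ∈ A0) (hu : u ∈ U) : Good (p * u) := by
  rcases hp with ⟨t, rfl⟩ | ⟨ρ, h, rfl⟩ | ⟨a, h, rfl⟩ | ⟨a, h, rfl⟩
  · rcases hu with ⟨s, ρ, s', rfl⟩ | hu
    · exact good_U (Or.inl ⟨t + s, ρ, s', by simp [fm, T_add, mul_assoc]⟩)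
    · simpa [fm, T_zero] using good_fm_B t 1 0 hu
  · rcases hu with ⟨s, ρ', s', rfl⟩ | hu
    · exact good_C_fm ⟨ρ, h⟩ _ _ _
    · simpa [fm, T_zero] using good_fm_B 0 ⟨ρ, h⟩ 0 hu
  · rcases hu with ⟨s, ρ', s', rfl⟩ | ⟨a', rfl | rfl⟩
    · refine good_of_step ?_
      rintro (x | e)
      · obtain ⟨x', t, ρ', t', H⟩ := st_fm_inl s ρ' s' x
        exact ⟨_, _, Or.inl ⟨t, ρ', t', one_mul _⟩, (st_hat_inl a x').mul H⟩
      · obtain ⟨e', H⟩ := st_fm_inr s ρ' s' e
        obtain ⟨k, hk, K⟩ := st_hat_B ⟨a, h⟩ (inr e')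
        exact ⟨_, _, Or.inr (by rwa [mul_one]), K.mul H⟩
    · exact good_U (Or.inr ⟨⟨a, h⟩ * a', Or.inl (map_mul hat _ _).symm⟩)
    · refine good_of_step fun y => ?_
      obtain ⟨k, hk, K⟩ := st_hat_B ⟨a, h⟩ (a'.1 y)
      exact ⟨_, _, Or.inr (by rwa [mul_one]), K.mul (st_rt a' y)⟩
  · refine good_of_step fun y => ?_
    obtain ⟨y', k, hk, K⟩ := (cl_U _ hu).2 y
    exact ⟨_, _, by rwa [one_mul], (st_rt a y').mul K⟩

theorem good {g : P} (hg : g ∈ Δ) : Good g := by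
  refine Δ_ind (good_U (Or.inr one_B)) (fun p hp g _ ⟨n, H⟩ => ?_) hg
  refine good_of_level n fun v hv => ?_
  obtain ⟨u, hu, K⟩ := H v hv.ge
  obtain ⟨p', hp', K'⟩ := (cl_A0.sec (g v) p hp).2
  exact ⟨_, K'.mul K, good_mul hp' (N_U hu)⟩

end Pool.Agent.MP_684c87_al.NE
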