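import Pool.Agent.MP_622d34_al.Main
import Mathlib.Data.Set.Finite.List
import Mathlib.Data.Set.Card

/-! The amenability criterion for groups of small activity over an amenable self-similar group,
in the language of permutations of finite words. -/

set_option autoImplicit false

namespace Pool.Agent.MP_684c87_al.NE

/-- `h` is the section of `g` at the vertex `v`. -/
def Sec {X : Type} (g : Equiv.Perm (List X)) (v : List X) (h : Equiv.Perm (List X)) : Prop :=
  ∀ w, g (v ++ w) = g v ++ h w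

/-- The section of `g` at `v` lies in `H`. -/
def SecIn {X : Type} (H : Set (Equiv.Perm (List X))) (g : Equiv.Perm (List X))
    (v : List X) : Prop := ∃ h ∈ H, Sec g v h

/-- The vertex of level `n` on the ray `ξ`. -/
def vertex {X : Type} (ξ : ℕ → X) (n : ℕ) : List X := (List.range n).map ξ

/-- There is a left-invariant finitely additive probability measure on all subsets. -/
def Am (G : Type) [Group G] : Prop :=
  ∃ m : Set G → ℝ, (∀ A, 0 ≤ m A) ∧ m Set.univ = 1 ∧
    (∀ A B, Disjoint A B → m (A ∪ B) = m A + m B) ∧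
    ∀ (g : G) (A : Set G), m ((fun x => g * x) '' A) = m A

theorem section_unique {X : Type} {g h h' : Equiv.Perm (List X)} {v : List X}
    (a : Sec g v h) (b : Sec g v h') : h = h' :=
  Equiv.ext fun w => List.append_cancel_left ((a w).symm.trans (b w))

theorem exists_mean {G : Type} [Group G] (h : Am G) :
    ∃ M : Pool.Agent.MP_622d34_al.Mean G, ∀ g : G, ∀ f, Pool.Agent.MP_622d34_al.U f →
      M.m (fun x => f (g * x)) = M.m f := by
  obtain ⟨μ, h0, h1, ha, hi⟩ := h
  obtain ⟨M, hM⟩ := Pool.Agent.MP_622d34_al.mean_of_setMean μ h0 h1 ha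
  refine ⟨M, fun g => hM _ fun A => ?_⟩
  rw [← hi g, Set.image_preimage_eq _ (Group.mulLeft_bijective g).2]

open Pool.Agent.MP_622d34_al in
theorem crit (X : Type) [Fintype X] [Nonempty X] (G H : Subgroup (Equiv.Perm (List X)))
    (hG : ∀ g ∈ G, (∀ v, (g v).length = v.length) ∧ {h | ∃ v, Sec g v h}.Finite)
    (hGs : ∀ g ∈ G, ∀ v, SecIn G g v) (hHs : ∀ g ∈ H, ∀ v, SecIn H g v) (hHa : Am H)
    (hq : ∀ g ∈ G, ∃ C : ℕ, ∀ n,
      {v : List X | v.length = n ∧ ¬ SecIn H g v}.ncard ≤ C * (n + 1) ^ 2)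
    (horb : ∀ g ∈ G, ∀ ξ : ℕ → X, (∀ n, ¬ SecIn H g (vertex ξ n)) →
      {η | ∃ h ∈ H, ∀ n, h (vertex ξ n) = vertex η n}.Finite) :
    Am G := by
  classical
  have hrt : ∀ (g : G) (x : X), ∃ y, g.1 [x] = [y] := fun g x =>
    List.length_eq_one_iff.mp ((hG g g.2).1 [x])
  choose rt hrt using hrt
  let _ : MulAction G X :=
    { smul := rt
      one_smul := fun x => List.singleton_injective (hrt 1 x).symm
      mul_smul := fun g h x => List.singleton_injective (by
        change [rt (g * h) x] = [rt g (rt h x)]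
        rw [← hrt, ← hrt, ← hrt]
        rfl) }
  have hrt' : ∀ (g : G) (x : X), g.1 [x] = [g • x] := hrt
  have hnil : ∀ g : G, g.1 [] = [] := fun g => List.length_eq_zero_iff.mp ((hG g g.2).1 [])
  have hsc : ∀ (g : G) (x : X), ∃ h : G, Sec g.1 [x] h.1 := fun g x =>
    (hGs g g.2 [x]).elim fun h hh => ⟨⟨h, hh.1⟩, hh.2⟩
  choose sc hsc using hsc
  let S : SS G X :=
    { sc := sc
      mul := fun g h x => Subtype.ext (section_unique (hsc (g * h) x) fun w => by
        change g.1 (h.1 ([x] ++ w)) = g.1 (h.1 [x]) ++ (sc g (h • x)).1 ((sc h x).1 w)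
        rw [hsc h x w, hrt', hsc g])
      faith := fun P hP g hg => Subtype.ext (Equiv.ext fun w => by
        induction w generalizing g with
        | nil => exact hnil g
        | cons x w ih =>
          have := hsc g x w
          rw [hrt', (hP g hg x).1, ih _ (hP g hg x).2] at this
          exact this) }
  have hv : ∀ (ξ : ℕ → X) n, vertex ξ (n + 1) = vertex ξ n ++ [ξ n] := fun ξ n => by
    simp [vertex, List.range_succ]
  have hsr : ∀ (g : G) ξ n, Sec g.1 (vertex ξ n) (S.sr g ξ n).1 ∧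
      g.1 (vertex ξ n) = vertex (S.ac g ξ) n := fun g ξ n => by
    induction n with
    | zero => exact ⟨fun w => by simp [vertex, hnil g, SS.sr], hnil g⟩
    | succ n ih =>
      refine ⟨fun w => ?_, by rw [hv, hv, ih.1, ih.2, hrt']; rfl⟩
      rw [hv, List.append_assoc, ih.1, ih.1, hsc, List.append_assoc]
      rfl
  let H0 : Subgroup G := H.subgroupOf G
  have hin : ∀ (g : G) ξ n, SecIn H g.1 (vertex ξ n) → S.sr g ξ n ∈ H0 :=
    fun g ξ n ⟨h, h1, h2⟩ => Subgroup.mem_subgroupOf.mpr (section_unique h2 (hsr g ξ n).1 ▸ h1)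
  have hsim : S.Sim H0 := fun g hg x => hin g (fun _ => x) 1 (hHs _ hg _)
  have hA : Amen (H0 : Set G) := by
    obtain ⟨M, hM⟩ := exists_mean hHa
    obtain ⟨M', hM'⟩ := exists_mean (G := ↥(G ⊓ H)) (setMean_of_amen H.subtype (G ⊓ H)
      (fun g hg => ⟨⟨g, hg.2⟩, rfl⟩) ⟨M, fun g _ => hM g⟩)
    exact ⟨M'.map fun x => ⟨x.1, x.2.1⟩, fun g hg f hf =>
      hM' ⟨g.1, g.2, hg⟩ (fun x => f ⟨x.1, x.2.1⟩) (hf.comp _)⟩
  refine setMean_of_amen G.subtype G (fun g hg => ⟨⟨g, hg⟩, rfl⟩)
    ((SS.amen_main hsim hA (fun g => ?_) (fun g ξ hξ => ?_) fun g => ?_).mono (Set.subset_univ _))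
  · refine ((hG g g.2).2.preimage Subtype.val_injective.injOn).subset ?_
    rintro _ ⟨ξ, n, rfl⟩
    exact ⟨_, (hsr g ξ n).1⟩
  · refine (horb g g.2 ξ fun n h => hξ n (hin g ξ n h)).subset ?_
    rintro _ ⟨h, hh, rfl⟩
    exact ⟨h.1, hh, fun n => (hsr h ξ n).2⟩
  · obtain ⟨C, hC⟩ := hq g g.2
    refine ⟨C, fun n => le_trans ?_ (hC n)⟩
    rw [SS.cnt_card, ← Set.ncard_coe_finset]
    refine Set.ncard_le_ncard_of_injOn (fun β => vertex β n) (fun β hβ => ⟨by simp [vertex],
      fun h => (Finset.mem_filter.mp hβ).2 (hin g β n h)⟩) (fun β hβ γ hγ e => lev_inj n β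
        (Finset.mem_filter.mp hβ).1 γ (Finset.mem_filter.mp hγ).1 fun i hi => ?_)
      ((List.finite_length_eq X n).subset fun v hv => hv.1)
    exact List.map_inj_left.mp e i (List.mem_range.mpr hi)

end Pool.Agent.MP_684c87_al.NE
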