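import Pool.Agent.MP_684c87_al.Group
import Pool.Agent.MP_684c87_al.NE.Crit
import Mathlib.GroupTheory.SpecificGroups.Alternating

/-! The alphabet has 64 digit letters (a sign and five binary digits) and five lamp letters. -/

set_option autoImplicit false

open Function Sum

namespace Pool.Agent.MP_684c87_al.NE

/-- The alphabet. -/
abbrev Y : Type := (Bool × (Fin 5 → Bool)) ⊕ Fin 5

/-- Permutations of the words. -/
abbrev P : Type := Equiv.Perm (List Y)

/-- One step of the wreath recursion. -/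
def St (g : P) (y y' : Y) (h : P) : Prop := ∀ w, g (y :: w) = y' :: h w

lemma St.mul {g g' h h' : P} {y y' y'' : Y} (H' : St g' y' y'' h') (H : St g y y' h) :
    St (g' * g) y y'' (h' * h) := fun w => by rw [Equiv.Perm.mul_apply, H, H']; rfl

lemma St.inv {g h : P} {y y' : Y} (H : St g y y' h) : St g⁻¹ y' y h⁻¹ := fun w => by
  rw [Equiv.Perm.inv_eq_iff_eq, H]; simp

lemma Sec.mul {g g' h h' : P} {v : List Y} (H' : Sec g' (g v) h') (H : Sec g v h) :
    Sec (g' * g) v (h' * h) := fun w => by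
  simp only [Equiv.Perm.mul_apply]
  rw [H w, H' _]

lemma Sec.append {g h k : P} {v u : List Y} (H : Sec g v h) (K : Sec h u k) :
    Sec g (v ++ u) k := fun w => by
  rw [List.append_assoc, H, K, H, List.append_assoc]

lemma sec_one (v : List Y) : Sec 1 v 1 := fun _ => rfl

lemma St.sec {g h k : P} {y y' : Y} {v : List Y} (H : St g y y' h) (K : Sec h v k) :
    Sec g (y :: v) k := fun w => by rw [List.cons_append, H, H, K, List.cons_append]

/-- Sets closed under the wreath recursion. -/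
def Cl (S : Set P) : Prop := ∀ g ∈ S, g [] = [] ∧ ∀ y, ∃ y', ∃ h ∈ S, St g y y' h

lemma Cl.sec {S : Set P} (hS : Cl S) (v : List Y) :
    ∀ g ∈ S, (g v).length = v.length ∧ SecIn S g v := by
  induction v with
  | nil => exact fun g hg => ⟨by rw [(hS g hg).1], g, hg, fun w => by rw [(hS g hg).1]; rfl⟩
  | cons y v ih =>
    intro g hg
    obtain ⟨y', h, hh, H⟩ := (hS g hg).2 y
    obtain ⟨l, k, hk, K⟩ := ih h hh
    exact ⟨by rw [H]; simp [l], k, hk, H.sec K⟩

/-- A homomorphism from an action on words. -/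
def mk {G : Type} [Group G] (F : G → List Y → List Y) (h1 : ∀ w, F 1 w = w)
    (h2 : ∀ a b w, F (a * b) w = F a (F b w)) : G →* P :=
  MonoidHom.toHomPerm (α := List Y)
    { toFun := F, map_one' := funext h1, map_mul' := fun a b => funext (h2 a b) }

/-- Rooted automorphisms. -/
def rt : Equiv.Perm Y →* P :=
  mk (fun a w => match w with | [] => [] | y :: w => a y :: w) (fun w => by cases w <;> rfl)
    fun a b w => by cases w <;> rfl

/-- Automorphisms with prescribed sections that fix the first letter. -/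
def wr : (Y → P) →* P :=
  mk (fun f w => match w with | [] => [] | y :: w => y :: f y w) (fun w => by cases w <;> rfl)
    fun a b w => by cases w <;> rfl

lemma st_rt (a : Equiv.Perm Y) (y : Y) : St (rt a) y (a y) 1 := fun _ => rfl

lemma st_wr (f : Y → P) (y : Y) : St (wr f) y y (f y) := fun _ => rfl

lemma eq_rt_wr {g : P} {a : Equiv.Perm Y} {f : Y → P} (h0 : g [] = [])
    (h : ∀ y, St g y (a y) (f y)) : g = rt a * wr f := Equiv.ext fun w => by
  cases w with
  | nil => exact h0
  | cons y w => exact h y w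

/-- The sign twist. -/
def sg (b : Bool) (t : V) : V := if b then -t else t

/-- The new letter. -/
def mv (t : V) : Y → Y
  | inl x => inl (x.1, low (dig x.2 + t))
  | inr e => inr e

/-- The carry. -/
def cy (t : V) : Y → V
  | inl x => sg x.1 (hi (dig x.2 + t))
  | inr _ => 0

lemma mv_zero (y : Y) : mv 0 y = y := by
  cases y <;> simp [mv, low_dig]

lemma cy_zero (y : Y) : cy 0 y = 0 := by
  rcases y with x | e
  · have := hi_dig_add_even x.2 0
    rw [add_zero] at this
    simp only [cy, this, sg, neg_zero, ite_self]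
  · rfl

lemma low_add (d : Fin 5 → Bool) (s t : V) :
    low (dig (low (dig d + t)) + s) = low (dig d + (s + t)) :=
  low_congr fun j => by simp only [Pi.add_apply, dig_low]; omega

lemma mv_add (s t : V) (y : Y) : mv (s + t) y = mv s (mv t y) := by
  cases y <;> simp only [mv, low_add]

lemma cy_add (s t : V) (y : Y) : cy (s + t) y = cy s (mv t y) + cy t y := by
  rcases y with x | e
  · have : hi (dig x.2 + (s + t)) = hi (dig (low (dig x.2 + t)) + s) + hi (dig x.2 + t) := by
      funext j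
      simp only [hi, Pi.add_apply, dig_low]
      omega
    simp only [cy, mv, sg, this]
    split_ifs
    · rw [neg_add]
    · rfl
  · simp [cy, mv]

/-- Twisted translation. -/
def TF : V → List Y → List Y
  | _, [] => []
  | t, y :: w => mv t y :: TF (cy t y) w

/-- Twisted translations as a homomorphism. -/
def TH : Multiplicative V →* P :=
  mk (fun t => TF t.toAdd) (fun w => by
    induction w with
    | nil => rfl
    | cons y w ih => simpa [TF, mv_zero, cy_zero] using ih) fun a b w => by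
    rw [toAdd_mul]
    generalize a.toAdd = s
    generalize b.toAdd = t
    induction w generalizing s t with
    | nil => rfl
    | cons y w ih => simp only [TF, mv_add, cy_add, ih]

/-- Twisted translation by `t`. -/
def T (t : V) : P := TH (Multiplicative.ofAdd t)

lemma T_add (s t : V) : T (s + t) = T s * T t := TH.map_mul _ _

lemma T_zero : T 0 = 1 := TH.map_one

lemma T_neg (t : V) : T (-t) = (T t)⁻¹ := TH.map_inv _

lemma st_T (t : V) (y : Y) : St (T t) y (mv t y) (T (cy t y)) := fun _ => rfl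

/-- Move the first lamp letter, in a way that depends on the word before it. -/
def LF : (List Y → Equiv.Perm (Fin 5)) → List Y → List Y
  | _, [] => []
  | π, inl x :: w => inl x :: LF (fun u => π (inl x :: u)) w
  | π, inr e :: w => inr (π [] e) :: w

/-- The lamp group. -/
def L : (List Y → Equiv.Perm (Fin 5)) →* P :=
  mk LF (fun w => by
    induction w with
    | nil => rfl
    | cons y w ih =>
      cases y
      · exact congrArg _ ih
      · rfl) fun a b w => by
    induction w generalizing a b with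
    | nil => rfl
    | cons y w ih =>
      cases y
      · exact congrArg _ (ih _ _)
      · rfl

lemma st_L_inl (π : List Y → Equiv.Perm (Fin 5)) (x : Bool × (Fin 5 → Bool)) :
    St (L π) (inl x) (inl x) (L fun u => π (inl x :: u)) := fun _ => rfl

lemma st_L_inr (π : List Y → Equiv.Perm (Fin 5)) (e : Fin 5) :
    St (L π) (inr e) (inr (π [] e)) 1 := fun _ => rfl

lemma L_mul_T (π : List Y → Equiv.Perm (Fin 5)) (t : V) :
    L π * T t = T t * L fun u => π (T t u) := Equiv.ext fun w => by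
  induction w generalizing π t with
  | nil => rfl
  | cons y w ih =>
    rcases y with x | e
    · exact congrArg (_ :: ·) (ih _ _)
    · rfl

/-- The zero letter. -/
def z : Y := inl (false, zd)

/-- The lamp moves along the zero ray. -/
def C : Equiv.Perm (Fin 5) →* P :=
  L.comp (MonoidHom.mk' (fun ρ u => if ∀ y ∈ u, y = z then ρ else 1) fun a b => funext fun u => by
    simp only [Pi.mul_apply]
    split_ifs <;> simp)

lemma C_eq (ρ : Equiv.Perm (Fin 5)) : C ρ = L fun u => if ∀ y ∈ u, y = z then ρ else 1 := rfl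

lemma st_C (ρ : Equiv.Perm (Fin 5)) (y : Y) :
    St (C ρ) y (Equiv.Perm.sumCongr 1 ρ y) (if y = z then C ρ else 1) := by
  rcases y with x | e
  · have := st_L_inl (fun u => if ∀ y ∈ u, y = z then ρ else 1) x
    split_ifs with h
    · simp only [List.forall_mem_cons, h, true_and] at this
      rw [h]
      exact this
    · simpa [C_eq, h, ← Pi.one_def] using this
  · simpa [C_eq, z] using st_L_inr (fun u => if ∀ y ∈ u, y = z then ρ else 1) e

/-- The directed map. -/
def hatF (a : Equiv.Perm Y) : List Y → List Y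
  | [] => []
  | y :: w => y :: if y = inr 0 then hatF a w else if y = inr 1 then rt a w else w

/-- Directed automorphisms. -/
def hat : Equiv.Perm Y →* P :=
  mk hatF (fun w => by
    induction w with
    | nil => rfl
    | cons y w ih => simp [hatF, ih]) fun a b w => by
    induction w with
    | nil => rfl
    | cons y w ih =>
      simp only [hatF, ih, map_mul, Equiv.Perm.mul_apply]
      split_ifs <;> rfl

lemma st_hat (a : Equiv.Perm Y) (y : Y) :
    St (hat a) y y (if y = inr 0 then hat a else if y = inr 1 then rt a else 1) := fun w => by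
  change hatF a (y :: w) = _
  rw [hatF]
  split_ifs <;> rfl

lemma st_hat_inl (a : Equiv.Perm Y) (x : Bool × (Fin 5 → Bool)) : St (hat a) (inl x) (inl x) 1 := by
  simpa using st_hat a (inl x)

/-- Indices of the generators. -/
abbrev I : Type :=
  (alternatingGroup Y ⊕ alternatingGroup Y) ⊕ (alternatingGroup (Fin 5) ⊕ Fin 5)

/-- The generators. -/
def gen : I → P
  | inl (inl a) => rt a
  | inl (inr a) => hat a
  | inr (inl ρ) => C ρ
  | inr (inr j) => T (Pi.single j 1)

/-- The group. -/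
def Δ : Subgroup P := Subgroup.closure (Set.range gen)

lemma gen_mem (i : I) : gen i ∈ Δ := Subgroup.subset_closure ⟨i, rfl⟩

lemma rt_mem {a : Equiv.Perm Y} (h : a ∈ alternatingGroup Y) : rt a ∈ Δ :=
  gen_mem (inl (inl ⟨a, h⟩))

lemma hat_mem {a : Equiv.Perm Y} (h : a ∈ alternatingGroup Y) : hat a ∈ Δ :=
  gen_mem (inl (inr ⟨a, h⟩))

lemma C_mem {ρ : Equiv.Perm (Fin 5)} (h : ρ ∈ alternatingGroup (Fin 5)) : C ρ ∈ Δ :=
  gen_mem (inr (inl ⟨ρ, h⟩))

lemma T_mem (t : V) : T t ∈ Δ := by
  induction t using Pi.single_induction with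
  | zero => rw [T_zero]; exact Δ.one_mem
  | add s t hs ht => rw [T_add]; exact Δ.mul_mem hs ht
  | single j m =>
    have : T (Pi.single j m) = T (Pi.single j 1) ^ m := by
      rw [T, T, ← map_zpow, ← ofAdd_zsmul, ← Pi.single_smul, smul_eq_mul, mul_one]
    rw [this]
    exact Δ.zpow_mem (gen_mem (inr (inr j))) m

/-- The states of the automaton, with all translations. -/
def A0 : Set P := {p | (∃ t, p = T t) ∨ (∃ ρ ∈ alternatingGroup (Fin 5), p = C ρ) ∨
  (∃ a ∈ alternatingGroup Y, p = hat a) ∨ ∃ a ∈ alternatingGroup Y, p = rt a}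

lemma one_A0 : 1 ∈ A0 := Or.inl ⟨0, T_zero.symm⟩

lemma cl_A0 : Cl A0 := by
  rintro _ (⟨t, rfl⟩ | ⟨ρ, h, rfl⟩ | ⟨a, h, rfl⟩ | ⟨a, h, rfl⟩) <;> refine ⟨rfl, fun y => ?_⟩
  · exact ⟨_, _, Or.inl ⟨_, rfl⟩, st_T t y⟩
  · refine ⟨_, _, ?_, st_C ρ y⟩
    split_ifs
    exacts [Or.inr (Or.inl ⟨ρ, h, rfl⟩), one_A0]
  · refine ⟨_, _, ?_, st_hat a y⟩
    split_ifs
    exacts [Or.inr (Or.inr (Or.inl ⟨a, h, rfl⟩)), Or.inr (Or.inr (Or.inr ⟨a, h, rfl⟩)), one_A0]
  · exact ⟨_, _, one_A0, st_rt a y⟩

lemma A0_mem {p : P} (h : p ∈ A0) : p ∈ Δ := by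
  rcases h with ⟨t, rfl⟩ | ⟨ρ, h, rfl⟩ | ⟨a, h, rfl⟩ | ⟨a, h, rfl⟩
  exacts [T_mem t, C_mem h, hat_mem h, rt_mem h]

lemma gen_A0 (i : I) : gen i ∈ A0 ∧ (gen i)⁻¹ ∈ A0 := by
  rcases i with (a | a) | (ρ | j)
  · exact ⟨Or.inr (Or.inr (Or.inr ⟨a, a.2, rfl⟩)),
      Or.inr (Or.inr (Or.inr ⟨_, inv_mem a.2, (map_inv rt _).symm⟩))⟩
  · exact ⟨Or.inr (Or.inr (Or.inl ⟨a, a.2, rfl⟩)),
      Or.inr (Or.inr (Or.inl ⟨_, inv_mem a.2, (map_inv hat _).symm⟩))⟩
  · exact ⟨Or.inr (Or.inl ⟨ρ, ρ.2, rfl⟩), Or.inr (Or.inl ⟨_, inv_mem ρ.2, (map_inv C _).symm⟩)⟩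
  · exact ⟨Or.inl ⟨_, rfl⟩, Or.inl ⟨_, (T_neg _).symm⟩⟩

lemma Δ_ind {q : P → Prop} (h1 : q 1) (h : ∀ p ∈ A0, ∀ g ∈ Δ, q g → q (p * g)) {g : P}
    (hg : g ∈ Δ) : q g := by
  induction hg using Subgroup.closure_induction_left with
  | one => exact h1
  | mul_left x hx y hy ih =>
    obtain ⟨i, rfl⟩ := hx
    exact h _ (gen_A0 i).1 y hy ih
  | inv_mul_cancel x hx y hy ih =>
    obtain ⟨i, rfl⟩ := hx
    exact h _ (gen_A0 i).2 y hy ih

lemma cl_Δ : Cl Δ := fun g hg => by
  refine Δ_ind (q := fun g => g [] = [] ∧ ∀ y, ∃ y', ∃ h ∈ (Δ : Set P), St g y y' h)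
    ⟨rfl, fun y => ⟨y, 1, Δ.one_mem, fun _ => rfl⟩⟩ (fun p hp g _ ih => ⟨?_, fun y => ?_⟩) hg
  · rw [Equiv.Perm.mul_apply, ih.1, (cl_A0 p hp).1]
  · obtain ⟨y', h, hh, H⟩ := ih.2 y
    obtain ⟨y'', k, hk, K⟩ := (cl_A0 p hp).2 y'
    exact ⟨y'', _, Δ.mul_mem (A0_mem hk) hh, K.mul H⟩

lemma len {g : P} (hg : g ∈ Δ) (v : List Y) : (g v).length = v.length := (cl_Δ.sec v g hg).1

lemma pre {g : P} (hg : g ∈ Δ) {u v : List Y} (h : u <+: v) : g u <+: g v := by
  obtain ⟨w, rfl⟩ := h
  obtain ⟨k, -, K⟩ := (cl_Δ.sec u g hg).2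
  exact ⟨_, (K w).symm⟩

lemma pre_iff {g : P} (hg : g ∈ Δ) (u v : List Y) : g u <+: g v ↔ u <+: v :=
  ⟨fun h => by simpa using pre (Δ.inv_mem hg) h, pre hg⟩

end Pool.Agent.MP_684c87_al.NE
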