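import Pool.Agent.MP_684c87_al.NE.Contr
import Pool.Agent.MP_684c87_al.NE.Abs
import Pool.Agent.MP_684c87_al.NE.Class

/-! The lamp at the end of the zero ray gives a bounded harmonic function. -/

set_option autoImplicit false

open Function Sum Filter

namespace Pool.Agent.MP_684c87_al.NE

/-- Far along the zero ray `k` writes digit letters and acts on the lamp letters by `π`. -/
def Inv (k : P) (π : Equiv.Perm (Fin 5)) : Prop :=
  ∀ᶠ n in atTop, (∃ x, k (zn (n + 1)) = k (zn n) ++ [inl x]) ∧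
    ∀ y, k (zn (n + 1) ++ [inr y]) = k (zn (n + 1)) ++ [inr (π y)]

lemma Inv.unique {k : P} {π π' : Equiv.Perm (Fin 5)} (h : Inv k π) (h' : Inv k π') : π = π' := by
  obtain ⟨n, h1, h2⟩ := (h.and h').exists
  exact Equiv.ext fun y => by simpa using (h1.2 y).symm.trans (h2.2 y)

lemma Inv.mul {p k : P} {π ρ : Equiv.Perm (Fin 5)} (h : Inv k π)
    (hp : ∀ᶠ n in atTop, ∃ q, Sec p (k (zn n)) q ∧ (∀ x, ∃ x', q [inl x] = [inl x']) ∧
      ∀ y, q [inr y] = [inr (ρ y)]) : Inv (p * k) (ρ * π) := by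
  filter_upwards [h, hp, (tendsto_add_atTop_nat 1).eventually hp]
  rintro n ⟨⟨x, h1⟩, h2⟩ ⟨q, hq, h3, -⟩ ⟨q', hq', -, h4⟩
  simp only [Equiv.Perm.mul_apply]
  refine ⟨?_, fun y => by rw [h2, hq', h4]⟩
  obtain ⟨x', e⟩ := h3 x
  exact ⟨x', by rw [h1, hq, e]⟩

lemma sec_B (u : List Y) (x : Bool × (Fin 5 → Bool)) {p : P} (hp : p ∈ B) :
    Sec p (u ++ [inl x]) 1 := by
  induction u generalizing p with
  | nil =>
    obtain ⟨a, rfl | rfl⟩ := hp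
    exacts [(st_hat_inl a x).sec (sec_one _), (st_rt a _).sec (sec_one _)]
  | cons y u ih =>
    obtain ⟨y', h, hh, H⟩ := (cl_B p hp).2 y
    exact H.sec (ih hh)

lemma Inv.step {p k : P} {π : Equiv.Perm (Fin 5)} (h : Inv k π) (hp : p ∈ A0) (hk : k ∈ Δ) :
    ∃ ρ, Inv (p * k) (ρ * π) ∧ ((¬ ∀ n, k (zn n) = zn n) → ρ = 1) := by
  have hB : ∀ p ∈ B, Inv (p * k) (1 * π) := fun p hp => h.mul (by
    obtain ⟨N, hN⟩ := eventually_atTop.1 h
    filter_upwards [eventually_gt_atTop N] with n hn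
    obtain ⟨n, rfl⟩ := Nat.exists_eq_add_one_of_ne_zero (n := n) (by omega)
    obtain ⟨x, e⟩ := (hN n (by omega)).1
    exact ⟨1, e ▸ sec_B _ x hp, fun x => ⟨x, rfl⟩, fun _ => rfl⟩)
  rcases hp with ⟨t, rfl⟩ | ⟨ρ, -, rfl⟩ | ⟨a, ha, rfl⟩ | ⟨a, ha, rfl⟩
  · exact ⟨1, h.mul (.of_forall fun n => ⟨_, sec_T t _, fun x => ⟨_, rfl⟩, fun _ => rfl⟩),
      fun _ => rfl⟩
  · by_cases e : ∀ n, k (zn n) = zn n
    · refine ⟨ρ, h.mul (.of_forall fun n => ⟨_, sec_C ρ _, fun x => ⟨x, rfl⟩, fun y => ?_⟩),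
        fun e' => absurd e e'⟩
      rw [e, if_pos fun _ => List.eq_of_mem_replicate, st_C]
      simp [z]
    · obtain ⟨N, hN⟩ := not_forall.1 e
      refine ⟨1, h.mul ?_, fun _ => rfl⟩
      filter_upwards [eventually_ge_atTop N] with n hn
      refine ⟨_, sec_C ρ _, fun x => ⟨x, rfl⟩, fun y => ?_⟩
      rw [if_neg, map_one]
      · rfl
      · refine fun H => hN (List.eq_replicate_iff.2 ⟨by simp [len hk], fun y hy => H y ?_⟩)
        exact (pre hk (by simpa [List.prefix_replicate_iff] using hn)).subset hy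
  · exact ⟨1, hB _ ⟨⟨a, ha⟩, Or.inl rfl⟩, fun _ => rfl⟩
  · exact ⟨1, hB _ ⟨⟨a, ha⟩, Or.inr rfl⟩, fun _ => rfl⟩

lemma exists_inv {k : P} (hk : k ∈ Δ) : ∃ π, Inv k π :=
  Δ_ind (q := fun k => ∃ π, Inv k π)
    ⟨1, .of_forall fun _ => ⟨⟨_, List.replicate_succ'⟩, fun _ => rfl⟩⟩
    (fun _ hp _ hg ⟨_, h⟩ => let ⟨_, h', _⟩ := h.step hp hg; ⟨_, h'⟩) hk

lemma C_zn (ρ : Equiv.Perm (Fin 5)) (n : ℕ) : C ρ (zn n) = zn n := L_zn _ n

lemma Inv.mul_C {k : P} {π : Equiv.Perm (Fin 5)} (h : Inv k π) (ρ : Equiv.Perm (Fin 5)) :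
    Inv (k * C ρ) (π * ρ) := by
  filter_upwards [h] with n ⟨h1, h2⟩
  simp only [Equiv.Perm.mul_apply, C_zn]
  refine ⟨h1, fun y => ?_⟩
  rw [sec_C, C_zn, if_pos fun _ => List.eq_of_mem_replicate, st_C, ← h2]
  simp [z]

/-- The generators as elements of the group. -/
def sgen (i : I) : Δ := ⟨gen i, gen_mem i⟩

lemma closure_sgen : Subgroup.closure (Set.range sgen) = ⊤ := closure_range_mk gen

lemma exists_rho (π : Equiv.Perm (Fin 5)) :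
    ∃ ρ ∈ alternatingGroup (Fin 5), ((π * ρ) 0 = 0 ↔ ¬ π 0 = 0) := by
  have h : ∀ y : Fin 5, ∃ ρ ∈ alternatingGroup (Fin 5), ρ 0 = y := fun y => by
    by_cases e : y = 0
    · exact ⟨1, one_mem _, e.symm⟩
    · obtain ⟨u, h1, h2⟩ : ∃ u : Fin 5, u ≠ 0 ∧ u ≠ y := by revert y; decide
      exact ⟨Equiv.swap 0 y * Equiv.swap y u, by
        simp [Equiv.Perm.mem_alternatingGroup, Ne.symm e, h2.symm], by
        simp [Equiv.swap_apply_of_ne_of_ne (Ne.symm e) h1.symm]⟩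
  by_cases e : π 0 = 0
  · obtain ⟨ρ, h1, h2⟩ := h 1
    refine ⟨ρ, h1, iff_of_false (fun e' => ?_) (not_not.2 e)⟩
    rw [Equiv.Perm.mul_apply, h2] at e'
    exact absurd (π.injective (e'.trans e.symm)) (by decide)
  · obtain ⟨ρ, h1, h2⟩ := h (π⁻¹ 0)
    exact ⟨ρ, h1, iff_of_true (by simp [h2]) e⟩

theorem harmonic : ∃ u : Δ → ℝ,
    (∀ g, u g = ∑ q, 1 / Fintype.card (I × Bool) * u (g * sy sgen q)) ∧ (∃ C, ∀ g, |u g| ≤ C) ∧
      ∃ g h, u g ≠ u h := by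
  classical
  let o : MulAction.orbit Δ zn := ⟨zn, MulAction.mem_orbit_self _⟩
  have ho : ∀ k k' : Δ, k • o = k' • o ↔ ∀ n, k.1 (zn n) = k'.1 (zn n) := fun k k' =>
    Subtype.ext_iff.trans funext_iff
  have ho1 : ∀ k : Δ, k • o = o ↔ ∀ n, k.1 (zn n) = zn n := fun k =>
    Subtype.ext_iff.trans funext_iff
  have hb : ∀ {k : P} {π}, Inv k π → ((∃ π, Inv k π ∧ π 0 = 0) ↔ π 0 = 0) := fun h =>
    ⟨fun ⟨_, h1, h2⟩ => h1.unique h ▸ h2, fun e => ⟨_, h, e⟩⟩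
  refine exists_harm (sy sgen) o (fun ⟨_, g, e⟩ => ⟨g⁻¹, Subtype.ext (by simpa using e)⟩)
    (dirichlet_of_lattice _ o (fun t => ⟨T t, T_mem t⟩) (fun a b => Subtype.ext (T_add a b))
      (fun t => (ho1 _).trans ⟨T_free t, fun e n => by simp [e, T_zero]⟩)
      (fun j => (inr (inr j), false)) (fun a b e => by simpa using e) fun j => inv_inv _)
    (fun g => if ∃ π, Inv (g⁻¹).1 π ∧ π 0 = 0 then 1 else -1) (fun g => ?_) (fun g i h => ?_)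
    fun g => ?_
  · split_ifs <;> simp
  · obtain ⟨π, hπ⟩ := exists_inv (g⁻¹).2
    have hp : ((sy sgen i)⁻¹).1 ∈ A0 := by
      rcases i with ⟨i, _ | _⟩
      exacts [(gen_A0 i).1, (gen_A0 i).2]
    obtain ⟨ρ, h1, h2⟩ := hπ.step hp (g⁻¹).2
    rw [h2 (mt (ho1 _).2 h), one_mul] at h1
    simp only [mul_inv_rev, Subgroup.coe_mul, hb h1, hb hπ]
  · obtain ⟨π, hπ⟩ := exists_inv (g⁻¹).2
    obtain ⟨ρ, h1, h2⟩ := exists_rho π
    refine ⟨(g⁻¹ * ⟨C ρ, C_mem h1⟩)⁻¹, ?_, ?_⟩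
    · rw [inv_inv, ho]
      exact fun n => congrArg _ (C_zn ρ n)
    · simp only [inv_inv, Subgroup.coe_mul, hb (hπ.mul_C ρ), hb hπ, h2]
      split_ifs <;> simp_all

end Pool.Agent.MP_684c87_al.NE
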